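import Pool.Agent.W_MP_3aefc9_co.Nodup

/-!
# Counting classes
-/

namespace RamseyTower

namespace F

def nlv : F → ℕ
  | nil => 0
  | cons _ _ _ => 1

def plv (f : F) : ℕ := if ht f = 1 then 1 else 0

def winN (f : F) : ℕ := Multiset.card (win f)

def sp0 (f : F) : ℕ := Multiset.card (spots0 f)

def nlc (f : F) : ℕ := ch AN nlv f

theorem nlc_nil : nlc nil = 0 := rfl
theorem nlc_cons (d : Bool) (c n : F) : nlc (cons d c n) = nlv c + nlc n := rfl
theorem winN_nil : winN nil = 0 := by simp [winN, win]
theorem winN_cons (d : Bool) (c n : F) :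
    winN (cons d c n) = Multiset.card (here (cons d c n)) + winN n := by
  rw [winN, win, Multiset.card_add, AC_apply, Multiset.card_map]; rfl

theorem nlv_eq_one {c : F} (h : c ≠ nil) : nlv c = 1 := by
  cases c with
  | nil => exact absurd rfl h
  | cons _ _ _ => rfl

theorem winN_le (d : Bool) (c n : F) : winN n ≤ winN (cons d c n) := by
  rw [winN_cons]; omega

theorem len_aux : ∀ (f : F), Alt f →
    (dir f ≠ some false → len f ≤ 2 * winN f + 5 * nlc f + 3) ∧
    (len f ≤ 2 * winN f + 5 * nlc f + 4)
  | nil => by intro _; simp [len]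
  | cons false c n => by
    intro h
    refine ⟨fun h1 => absurd rfl h1, ?_⟩
    obtain ⟨_, h2, h3⟩ := h
    have := (len_aux n h2).1 h3
    have hw := winN_le false c n
    rw [nlc_cons, len]
    omega
  | cons true c nil => by
    intro _
    simp only [len]
    constructor
    · intro _; omega
    · omega
  | cons true c (cons true c2 n2) => by
    intro h
    exact absurd rfl h.2.2
  | cons true (cons d0 c0 n0) (cons false c2 n2) => by
    intro h
    obtain ⟨_, h2, _⟩ := h
    have := (len_aux _ h2).2
    have hw := winN_le true (cons d0 c0 n0) (cons false c2 n2)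
    rw [nlc_cons, len, nlv]
    constructor
    · intro _; omega
    · omega
  | cons true nil (cons false (cons d0 c0 n0) n2) => by
    intro h
    obtain ⟨_, ⟨_, h2, h3⟩, _⟩ := h
    have := (len_aux n2 h2).1 h3
    have hw := winN_le false (cons d0 c0 n0) n2
    have hw2 := winN_le true nil (cons false (cons d0 c0 n0) n2)
    simp only [nlc_cons, len, nlv]
    constructor
    · intro _; omega
    · omega
  | cons true nil (cons false nil nil) => by
    intro _
    simp only [len]
    constructor
    · intro _; omega
    · omega
  | cons true nil (cons false nil (cons false c3 n3)) => by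
    intro h
    exact absurd rfl h.2.1.2.2
  | cons true nil (cons false nil (cons true (cons d0 c0 n0) n3)) => by
    intro h
    obtain ⟨_, ⟨_, ⟨_, h2, _⟩, _⟩, _⟩ := h
    have := (len_aux n3 h2).2
    have hw := winN_le true (cons d0 c0 n0) n3
    have hw2 := winN_le false nil (cons true (cons d0 c0 n0) n3)
    have hw3 := winN_le true nil (cons false nil (cons true (cons d0 c0 n0) n3))
    simp only [nlc_cons, len, nlv]
    constructor
    · intro _; omega
    · omega
  | cons true nil (cons false nil (cons true nil nil)) => by
    intro _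
    simp only [len]
    constructor
    · intro _; omega
    · omega
  | cons true nil (cons false nil (cons true nil (cons true c4 n4))) => by
    intro h
    exact absurd rfl h.2.1.2.1.2.2
  | cons true nil (cons false nil (cons true nil (cons false (cons d0 c0 n0) n4))) => by
    intro h
    obtain ⟨_, ⟨_, ⟨_, ⟨_, h2, h3⟩, _⟩, _⟩, _⟩ := h
    have := (len_aux n4 h2).1 h3
    have hw := winN_le false (cons d0 c0 n0) n4
    have hw2 := winN_le true nil (cons false (cons d0 c0 n0) n4)
    have hw3 := winN_le false nil (cons true nil (cons false (cons d0 c0 n0) n4))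
    have hw4 := winN_le true nil
      (cons false nil (cons true nil (cons false (cons d0 c0 n0) n4)))
    simp only [nlc_cons, len, nlv]
    constructor
    · intro _; omega
    · omega
  | cons true nil (cons false nil (cons true nil (cons false nil n4))) => by
    intro h
    obtain ⟨_, h2, _⟩ := h
    have := (len_aux _ h2).2
    rw [winN_cons, nlc_cons, len]
    have hh : Multiset.card (here (cons true nil (cons false nil (cons true nil
      (cons false nil n4))))) = 1 := by
      rcases here_cases (cons true nil (cons false nil (cons true nil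
        (cons false nil n4)))) with h0 | ⟨r, _, h0⟩
      · simp [here] at h0
      · rw [h0]; simp
    rw [hh]
    constructor
    · intro _; omega
    · omega

theorem len_le (f : F) (hf : Alt f) : len f ≤ 2 * winN f + 5 * nlc f + 4 * nlv f := by
  cases f with
  | nil => simp [len]
  | cons d c n =>
    have := (len_aux _ hf).2
    rw [nlv]; omega

theorem ht_zero {f : F} (h : ht f = 0) : f = nil := by
  cases f with
  | nil => rfl
  | cons d c n => simp [ht] at h

theorem plv_le (f : F) (hf : Alt f) : plv f ≤ sp0 f := by
  unfold plv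
  split_ifs with h
  swap
  · exact Nat.zero_le _
  have key : 1 ≤ Multiset.card (start f) := by
    cases f with
    | nil => simp [ht] at h
    | cons d c n =>
      simp only [ht] at h
      have hc : c = nil := ht_zero (by omega)
      subst hc
      have hn : ht n ≤ 1 := by omega
      cases d with
      | true => simp [start]
      | false =>
        cases n with
        | nil => simp [start]
        | cons d2 c2 n2 =>
          have hd2 : d2 = true := by
            have := hf.2.2
            cases d2 with
            | true => rfl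
            | false => exact absurd rfl this
          subst hd2
          simp only [ht] at hn
          have hc2 : c2 = nil := ht_zero (by omega)
          subst hc2
          cases n2 with
          | nil => simp [start]
          | cons d3 c3 n3 =>
            have hd3 : d3 = false := by
              have := hf.2.1.2.2
              cases d3 with
              | false => rfl
              | true => exact absurd rfl this
            subst hd3
            simp only [ht] at hn
            have hc3 : c3 = nil := ht_zero (by omega)
            subst hc3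
            simp [start]
  rw [sp0, spots0, Multiset.card_add]
  omega

theorem winN_le_sp0 (f : F) : winN f ≤ sp0 f := by
  rw [sp0, spots0, Multiset.card_add, winN]; omega

/-! ### Linearity -/

theorem Tot_add (g h : F → ℕ) (a b : ℕ) (f : F) :
    Tot AN a b (fun v => g v + h v) f = Tot AN a b g f + Tot AN a b h f := by
  have hd : ∀ a v, dep AN (fun v => g v + h v) a v = dep AN g a v + dep AN h a v := by
    intro a
    induction a with
    | zero => intro v; rfl
    | succ a ih =>
      intro v
      simp only [dep]
      rw [← ch_add]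
      congr 1
      funext v; exact ih v
  rw [Tot, Tot, Tot, ← all_add]
  congr 1
  funext v
  rw [hd]
  split_ifs <;> simp

theorem Tot_mul (k : ℕ) (g : F → ℕ) (a b : ℕ) (f : F) :
    Tot AN a b (fun v => k * g v) f = k * Tot AN a b g f := by
  have := hom_Tot AN AN (AddMonoidHom.mulLeft k) (fun _ _ => rfl) g a b f
  simpa using this.symm

theorem all_mul (k : ℕ) (g : F → ℕ) (f : F) :
    all AN (fun v => k * g v) f = k * all AN g f := by
  have := hom_all AN AN (AddMonoidHom.mulLeft k) (fun _ _ => rfl) g f
  simpa using this.symm

theorem dep_ch {T : Type} [AddCommMonoid T] (A : (F → F) → T →+ T) (g : F → T) (a : ℕ) :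
    dep A (ch A g) a = dep A g (a + 1) := by
  induction a with
  | zero => rfl
  | succ a ih => rw [dep, ih]; rfl

theorem all_sum {ι : Type} (s : Finset ι) (g : ι → F → ℕ) (f : F) :
    all AN (fun v => ∑ i ∈ s, g i v) f = ∑ i ∈ s, all AN (g i) f := by
  classical
  induction s using Finset.induction_on with
  | empty =>
    simp only [Finset.sum_empty]
    have : ∀ f, allS AN (fun _ => 0) f = 0 := by
      intro f
      induction f with
      | nil => rfl
      | cons d c n ihc ihn => simp [allS, ihc, ihn]
    rw [all, this, add_zero]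
  | insert i s hi ih =>
    simp only [Finset.sum_insert hi]
    rw [all_add, ih]

theorem ch_sum {ι : Type} (s : Finset ι) (g : ι → F → ℕ) (f : F) :
    ch AN (fun v => ∑ i ∈ s, g i v) f = ∑ i ∈ s, ch AN (g i) f := by
  classical
  induction s using Finset.induction_on with
  | empty =>
    simp only [Finset.sum_empty]
    induction f with
    | nil => rfl
    | cons d c n ihc ihn => simp [ch, ihn]
  | insert i s hi ih =>
    simp only [Finset.sum_insert hi]
    rw [ch_add, ih]

theorem ch_mono_ht {g g' : F → ℕ} (b : ℕ) (H : ∀ v, ht v ≤ b → g v ≤ g' v) (f : F)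
    (hf : ht f ≤ b + 1) : ch AN g f ≤ ch AN g' f := by
  induction f with
  | nil => exact le_rfl
  | cons d c n _ ihn =>
    simp only [ht, max_le_iff] at hf
    simp only [ch_cons, AN_apply]
    exact Nat.add_le_add (H c (by omega)) (ihn hf.2)

theorem all_mono_ht {g g' : F → ℕ} (b : ℕ) (H : ∀ v, ht v ≤ b → g v ≤ g' v) (f : F)
    (hf : ht f ≤ b) : all AN g f ≤ all AN g' f := by
  have key : ∀ f, ht f ≤ b → allS AN g f ≤ allS AN g' f := by
    intro f
    induction f with
    | nil => intro _; exact le_rfl
    | cons d c n ihc ihn =>
      intro hf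
      simp only [ht, max_le_iff] at hf
      simp only [allS, AN_apply]
      have h1 := H c (by omega)
      have h2 := ihc (by omega)
      have h3 := ihn hf.2
      omega
  exact Nat.add_le_add (H f hf) (key f hf)

/-! ### Heights -/

theorem exists_child_ht {f : F} {m : ℕ} (h : ht f = m + 1) :
    1 ≤ ch AN (fun v => if ht v = m then 1 else 0) f := by
  induction f with
  | nil => simp [ht] at h
  | cons d c n _ ihn =>
    simp only [ch_cons, AN_apply]
    simp only [ht] at h
    by_cases h1 : ht c = m
    · rw [if_pos h1]; omega
    · have : ht n = m + 1 := by omega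
      have := ihn this
      omega

theorem dep_plv_pos (m : ℕ) : ∀ (f : F), ht f = m + 1 → 1 ≤ dep AN plv m f := by
  induction m with
  | zero => intro f h; simp [dep, plv, h]
  | succ m ih =>
    intro f h
    have h1 := exists_child_ht h
    refine h1.trans ?_
    simp only [dep]
    refine ch_mono' AN ?_ f
    intro v
    split_ifs with h2
    · exact ih v h2
    · exact Nat.zero_le _

/-- Number of nodes of height exactly `h`. -/
def NH (h : ℕ) (f : F) : ℕ := all AN (fun v => if ht v = h then 1 else 0) f

theorem NH_succ_le (h : ℕ) (f : F) : NH (h + 1) f ≤ NH h f := by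
  have h1 : NH (h + 1) f ≤ all AN (ch AN (fun v => if ht v = h then 1 else 0)) f := by
    refine all_mono' AN ?_ f
    intro v
    split_ifs with h2
    · exact exists_child_ht h2
    · exact Nat.zero_le _
  refine h1.trans ?_
  rw [all_ch]
  exact le_add_self

theorem NH_anti {h h' : ℕ} (hh : h ≤ h') (f : F) : NH h' f ≤ NH h f := by
  induction hh with
  | refl => exact le_rfl
  | step _ ih => exact (NH_succ_le _ f).trans ih

theorem NH_le_Tot (h : ℕ) (f : F) : NH (h + 1) f ≤ Tot AN h (h + 1) plv f := by
  refine all_mono' AN ?_ f
  intro v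
  split_ifs with h1 h2 h2
  · exact dep_plv_pos h v h1
  · omega
  · exact Nat.zero_le _
  · exact Nat.zero_le _

theorem all_nlv_le (H : ℕ) (f : F) (hf : ht f ≤ H) :
    all AN nlv f ≤ ∑ i ∈ Finset.range H, NH (i + 1) f := by
  unfold NH
  rw [← all_sum]
  refine all_mono_ht H ?_ f hf
  intro v hv
  cases v with
  | nil => exact Nat.zero_le _
  | cons d c n =>
    have hpos : 1 ≤ ht (cons d c n) := by simp only [ht]; omega
    rw [nlv]
    have : ∑ i ∈ Finset.range H, (if ht (cons d c n) = i + 1 then 1 else 0) =
        ∑ i ∈ Finset.range H, (if ht (cons d c n) - 1 = i then 1 else 0) := by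
      refine Finset.sum_congr rfl ?_
      intro i _
      congr 1
      simp only [eq_iff_iff]
      omega
    rw [this, Finset.sum_ite_eq, if_pos]
    rw [Finset.mem_range]; omega

theorem all_nlv_le' (h H : ℕ) (f : F) (hf : ht f ≤ H) :
    all AN nlv f ≤ h * NH 1 f + H * NH (h + 1) f := by
  refine (all_nlv_le H f hf).trans ?_
  have h1 : ∀ i ∈ Finset.range H, NH (i + 1) f ≤
      (if i < h then NH 1 f else 0) + NH (h + 1) f := by
    intro i _
    split_ifs with hi
    · have := NH_anti (show 1 ≤ i + 1 by omega) f
      omega
    · have := NH_anti (show h + 1 ≤ i + 1 by omega) f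
      omega
  refine (Finset.sum_le_sum h1).trans ?_
  rw [Finset.sum_add_distrib]
  have h2 : ∑ i ∈ Finset.range H, (if i < h then NH 1 f else 0) ≤ h * NH 1 f := by
    rw [← Finset.sum_filter, Finset.sum_const, smul_eq_mul]
    refine Nat.mul_le_mul_right _ ?_
    have : (Finset.range H).filter (fun i => i < h) ⊆ Finset.range h := by
      intro i hi
      simp only [Finset.mem_filter, Finset.mem_range] at *
      exact hi.2
    have := Finset.card_le_card this
    simpa using this
  have h3 : ∑ i ∈ Finset.range H, NH (h + 1) f = H * NH (h + 1) f := by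
    rw [Finset.sum_const, Finset.card_range, smul_eq_mul]
  omega

theorem all_len (f : F) : all AN len f = size f := by
  have key : ∀ f, len f + allS AN len f = size f := by
    intro f
    induction f with
    | nil => rfl
    | cons d c n ihc ihn =>
      simp only [allS, len, size, AN_apply]
      omega
  exact key f

theorem NH_one_le (f : F) (hf : Alt f) : NH 1 f ≤ all AN sp0 f :=
  all_mono AN (g := plv) (h := sp0) plv_le f hf

/-- The first counting inequality. -/
theorem size_le (h H : ℕ) (f : F) (hf : Alt f) (hH : ht f ≤ H) :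
    size f ≤ (2 + 9 * h) * all AN sp0 f + 9 * H * Tot AN h (h + 1) sp0 f := by
  have h1 : all AN len f ≤ all AN (fun v => 2 * winN v + 5 * nlc v + 4 * nlv v) f :=
    all_mono AN len_le f hf
  rw [all_len] at h1
  rw [all_add AN (fun v => 2 * winN v + 5 * nlc v) (fun v => 4 * nlv v),
    all_add AN (fun v => 2 * winN v) (fun v => 5 * nlc v), all_mul, all_mul, all_mul] at h1
  have h2 : all AN winN f ≤ all AN sp0 f := all_mono' AN winN_le_sp0 f
  have h3 : all AN nlc f ≤ all AN nlv f := by
    have : all AN nlc f = allS AN nlv f := all_ch AN nlv f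
    rw [this]; exact le_add_self
  have h4 := all_nlv_le' h H f hH
  have h5 := NH_one_le f hf
  have h6 := (NH_le_Tot h f).trans (Tot_mono AN plv_le h (h + 1) f hf)
  have h7 : h * NH 1 f ≤ h * all AN sp0 f := Nat.mul_le_mul_left _ h5
  have h8 : H * NH (h + 1) f ≤ H * Tot AN h (h + 1) sp0 f := Nat.mul_le_mul_left _ h6
  nlinarith

/-! ### Nodes near the selected ones -/

theorem dep_nlv_le (a : ℕ) : ∀ (m : ℕ) (v : F), ht v ≤ a + m →
    dep AN nlv a v ≤ ∑ i ∈ Finset.range m, dep AN plv (a + i) v := by
  induction a with
  | zero =>
    intro m v hv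
    cases hm : ht v with
    | zero =>
      rw [ht_zero hm]
      exact Nat.zero_le _
    | succ k =>
      have h1 := dep_plv_pos k v hm
      have h2 : nlv v = 1 := nlv_eq_one (by intro h0; rw [h0] at hm; simp [ht] at hm)
      simp only [dep, h2, zero_add]
      refine h1.trans ?_
      exact Finset.single_le_sum (f := fun i => dep AN plv i v) (fun _ _ => Nat.zero_le _)
        (Finset.mem_range.2 (by omega))
  | succ a ih =>
    intro m v hv
    simp only [dep]
    have h1 : ch AN (dep AN nlv a) v ≤
        ch AN (fun v => ∑ i ∈ Finset.range m, dep AN plv (a + i) v) v :=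
      ch_mono_ht (a + m) (fun v hv => ih m v hv) v (by omega)
    refine h1.trans ?_
    rw [ch_sum]
    refine Finset.sum_le_sum ?_
    intro i _
    rw [show a + 1 + i = (a + i) + 1 by ring]
    exact le_rfl

theorem Tot_nlv_le (a m : ℕ) (f : F) :
    Tot AN a (a + m) nlv f ≤ m * Tot AN a (a + m) plv f := by
  have h1 : Tot AN a (a + m) nlv f ≤ all AN (fun v => ∑ i ∈ Finset.range m,
      (if ht v ≤ a + m then dep AN plv (a + i) v else 0)) f := by
    refine all_mono' AN ?_ f
    intro v
    split_ifs with h
    · exact dep_nlv_le a m v h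
    · exact Nat.zero_le _
  refine h1.trans ?_
  rw [all_sum]
  have h2 : ∀ i ∈ Finset.range m,
      all AN (fun v => if ht v ≤ a + m then dep AN plv (a + i) v else 0) f ≤
        Tot AN a (a + m) plv f := by
    intro i _
    exact Tot_anti AN plv (show a ≤ a + i by omega) f
  refine (Finset.sum_le_sum h2).trans ?_
  rw [Finset.sum_const, Finset.card_range, smul_eq_mul]

/-- The second counting inequality. -/
theorem Tot_len_le (a m : ℕ) (f : F) (hf : Alt f) :
    Tot AN a (a + m) len f ≤ (2 + 9 * m) * Tot AN a (a + m) sp0 f := by
  have h1 : Tot AN a (a + m) len f ≤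
      Tot AN a (a + m) (fun v => 2 * winN v + 5 * nlc v + 4 * nlv v) f :=
    Tot_mono AN len_le a (a + m) f hf
  rw [Tot_add (fun v => 2 * winN v + 5 * nlc v) (fun v => 4 * nlv v),
    Tot_add (fun v => 2 * winN v) (fun v => 5 * nlc v), Tot_mul, Tot_mul, Tot_mul] at h1
  have h2 : Tot AN a (a + m) winN f ≤ Tot AN a (a + m) sp0 f :=
    Tot_mono AN (fun v _ => winN_le_sp0 v) a (a + m) f hf
  have h3 : Tot AN a (a + m) nlc f ≤ Tot AN a (a + m) nlv f := by
    have : Tot AN a (a + m) nlc f = Tot AN (a + 1) (a + m) nlv f := by
      rw [Tot, Tot]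
      congr 1
      funext v
      rw [show nlc = ch AN nlv from rfl, dep_ch]
    rw [this]
    exact Tot_succ_le AN nlv a (a + m) f
  have h4 := Tot_nlv_le a m f
  have h5 : Tot AN a (a + m) plv f ≤ Tot AN a (a + m) sp0 f :=
    Tot_mono AN plv_le a (a + m) f hf
  have h6 : m * Tot AN a (a + m) plv f ≤ m * Tot AN a (a + m) sp0 f :=
    Nat.mul_le_mul_left _ h5
  nlinarith

/-! ### Degrees -/

def cardHomF : Multiset F →+ ℕ := Multiset.cardHom

theorem card_Tot_und0 (a b : ℕ) (σ : F) :
    Multiset.card (Tot AM (a + 1) b und0 σ) ≤ 5 * Tot AN a b len σ := by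
  have h1 := hom_Tot AM AN Multiset.cardHom (fun φ x => by simp) und0 (a + 1) b σ
  have h2 : Multiset.card (Tot AM (a + 1) b und0 σ) =
      Tot AN (a + 1) b (fun v => Multiset.card (und0 v)) σ := h1
  rw [h2]
  have h3 : Tot AN (a + 1) b (fun v => Multiset.card (und0 v)) σ ≤
      Tot AN (a + 1) b (fun v => 4 * 1 + len v) σ := by
    refine all_mono' AN ?_ σ
    intro v
    split_ifs
    · have : ∀ a v, dep AN (fun v => Multiset.card (und0 v)) a v ≤
          dep AN (fun v => 4 * 1 + len v) a v := by
        intro a
        induction a with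
        | zero => intro v; simpa [dep] using card_und0 v
        | succ a ih => intro v; exact ch_mono' AN ih v
      exact this _ _
    · exact le_rfl
  refine h3.trans ?_
  rw [Tot_add (fun v => 4 * 1) len, Tot_mul 4 (fun _ => 1)]
  have h4 : Tot AN (a + 1) b (fun _ => 1) σ = Tot AN a b len σ := by
    rw [Tot, Tot]
    congr 1
    funext v
    rw [← dep_ch]
    have : ch AN (fun _ => 1) = len := by
      funext v
      induction v with
      | nil => rfl
      | cons d c n _ ihn => simp only [ch_cons, AN_apply, ihn, len]; omega
    rw [this]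
  rw [h4]
  have h5 := Tot_succ_le AN len a b σ
  omega

theorem card_all_und0 (σ : F) : Multiset.card (all AM und0 σ) ≤ 5 * size σ + 4 := by
  have h1 := hom_all AM AN Multiset.cardHom (fun φ x => by simp) und0 σ
  have h2 : Multiset.card (all AM und0 σ) =
      all AN (fun v => Multiset.card (und0 v)) σ := h1
  rw [h2]
  have h3 : all AN (fun v => Multiset.card (und0 v)) σ ≤ all AN (fun v => 4 * 1 + len v) σ :=
    all_mono' AN (fun v => by simpa using card_und0 v) σ
  refine h3.trans ?_
  rw [all_add AN (fun v => 4 * 1) len, all_mul 4 (fun _ => 1), all_len]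
  have h4 : all AN (fun _ => 1) σ = size σ + 1 := by
    have key : ∀ f, allS AN (fun _ => 1) f = size f := by
      intro f
      induction f with
      | nil => rfl
      | cons d c n ihc ihn => simp only [allS, size, AN_apply, ihc, ihn]; omega
    rw [all, key]; omega
  rw [h4]
  omega

theorem mem_undo_sel {a b : ℕ} {τ σ : F} (h : σ ∈ Tot AM a b out0 τ) :
    τ ∈ Tot AM a (b + 1) und0 σ := by
  refine mem_all ?_ τ σ h
  intro c c' hc
  split_ifs at hc with h1
  · have h2 := (cmp_dep a hc).ht1
    rw [if_pos (by omega)]
    exact mem_dep (fun c c' h => mem_und0 h) a c c' hc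
  · simp at hc

theorem mem_undo_all {τ σ : F} (h : σ ∈ all AM out0 τ) : τ ∈ all AM und0 σ :=
  mem_all (fun _ _ h => mem_und0 h) τ σ h

/-- The bound for the number of ways to undo a reduction. -/
theorem degree_bound (a m : ℕ) {τ σ : F} (hτ : Alt τ) (h : σ ∈ all AM out0 τ) :
    Multiset.card (Tot AM (a + 1) (a + m + 1) und0 σ) ≤
      5 * ((2 + 9 * (m + 2)) * Tot AN a (a + (m + 2)) sp0 τ + 1) := by
  refine (card_Tot_und0 a (a + m + 1) σ).trans ?_
  obtain ⟨t, ht⟩ := cmp_all h
  have h1 := ht.allw a (a + m + 1)
  have h2 : all AN (Wt a (a + m + 1)) σ = Tot AN a (a + m + 1) len σ := rfl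
  have h3 : all AN (Wt a (a + m + 1 + 1)) τ = Tot AN a (a + (m + 2)) len τ := rfl
  rw [h2, h3] at h1
  have h4 := Tot_len_le a (m + 2) τ hτ
  split_ifs at h1 <;> omega

end F

end RamseyTower
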