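import Mathlib

/-!
# The tower function and the arrow relation
-/

namespace RamseyTower

/-- The tower function, with `twr 0 = 1`, `twr 1 = 2` and `twr (i + 1) = 2 ^ twr i`. -/
def twr : ℕ → ℕ
  | 0 => 1
  | i + 1 => 2 ^ twr i

/-- `Arrow k n`: for every 2-colouring of the `k`-element subsets of an `n`-element set there is
a `(k+1)`-element subset all of whose `k`-element subsets have the same colour. -/
def Arrow (k n : ℕ) : Prop :=
  ∀ χ : Finset (Fin n) → Bool, ∃ T : Finset (Fin n), T.card = k + 1 ∧
    ∃ i : Bool, ∀ S : Finset (Fin n), S ⊆ T → S.card = k → χ S = i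

end RamseyTower
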