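import Pool.Agent.W_MP_3aefc9_co.Forest

/-!
# Classes of one-step reductions of a forest
-/

namespace RamseyTower

namespace F

/-- A node with a single leaf child of label `d`. -/
def lf (d : Bool) : F := cons d nil nil

/-- Classes located at the beginning of the list of children. -/
def start : F → Multiset (Multiset F)
  | cons true nil n => {{n}}
  | cons false nil nil => {{nil}}
  | cons false nil (cons true nil nil) => {{lf true, lf false}}
  | cons false nil (cons true nil (cons false nil n)) =>
      {{cons true nil (cons false nil n), cons false (lf true) n, cons false (lf false) n}}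
  | _ => 0

/-- The class located at four leaf children with labels `true, false, true, false`. -/
def here : F → Multiset (Multiset F)
  | cons true nil (cons false nil (cons true nil (cons false nil r))) =>
      {{cons true (lf true) (cons false nil r), cons true (lf false) (cons false nil r),
        cons true nil (cons false (lf true) r), cons true nil (cons false (lf false) r)}}
  | _ => 0

/-- All the classes of the previous kind in a list of children. -/
def win : F → Multiset (Multiset F)
  | nil => 0
  | cons d c n => here (cons d c n) + AC (cons d c) (win n)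

def spots0 (f : F) : Multiset (Multiset F) := start f + win f

/-- All classes of a forest. -/
def spots (f : F) : Multiset (Multiset F) := all AC spots0 f

def joinHom : Multiset (Multiset F) →+ Multiset F where
  toFun := Multiset.join
  map_zero' := Multiset.join_zero
  map_add' := fun a b => Multiset.join_add a b

theorem joinHom_apply (x : Multiset (Multiset F)) : joinHom x = x.join := rfl

theorem joinHom_AC (φ : F → F) (x : Multiset (Multiset F)) :
    joinHom (AC φ x) = AM φ (joinHom x) := by
  simp only [joinHom_apply, AC_apply, AM_apply]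
  rw [Multiset.map_join]

def out0 (f : F) : Multiset F := joinHom (spots0 f)

theorem start_cases (f : F) : start f = 0 ∨ (∃ n, f = cons true nil n ∧ start f = {{n}}) ∨
    (f = cons false nil nil ∧ start f = {{nil}}) ∨
    (f = cons false nil (cons true nil nil) ∧ start f = {{lf true, lf false}}) ∨
    (∃ n, f = cons false nil (cons true nil (cons false nil n)) ∧ start f =
      {{cons true nil (cons false nil n), cons false (lf true) n, cons false (lf false) n}}) := by
  unfold start
  split
  · right; left; exact ⟨_, rfl, rfl⟩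
  · right; right; left; exact ⟨rfl, rfl⟩
  · right; right; right; left; exact ⟨rfl, rfl⟩
  · right; right; right; right; exact ⟨_, rfl, rfl⟩
  · left; rfl

theorem here_cases (f : F) : here f = 0 ∨
    (∃ r, f = cons true nil (cons false nil (cons true nil (cons false nil r))) ∧ here f =
      {{cons true (lf true) (cons false nil r), cons true (lf false) (cons false nil r),
        cons true nil (cons false (lf true) r), cons true nil (cons false (lf false) r)}}) := by
  unfold here
  split
  · right; exact ⟨_, rfl, rfl⟩
  · left; rfl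

theorem mem_start_join {f σ : F} (h : σ ∈ (start f).join) :
    (f = cons true nil σ) ∨ (f = cons false nil nil ∧ σ = nil) ∨
    (f = cons false nil (cons true nil nil) ∧ ∃ d, σ = lf d) ∨
    (∃ n, f = cons false nil (cons true nil (cons false nil n)) ∧
      (σ = cons true nil (cons false nil n) ∨ ∃ d, σ = cons false (lf d) n)) := by
  rcases start_cases f with h0 | ⟨n, rfl, h0⟩ | ⟨rfl, h0⟩ | ⟨rfl, h0⟩ | ⟨n, rfl, h0⟩
  · simp [h0] at h
  · rw [h0] at h; simp at h; left; rw [h]
  · rw [h0] at h; simp at h; right; left; exact ⟨rfl, h⟩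
  · rw [h0] at h; simp at h
    right; right; left
    refine ⟨rfl, ?_⟩
    rcases h with h | h
    · exact ⟨_, h⟩
    · exact ⟨_, h⟩
  · rw [h0] at h; simp at h
    right; right; right
    refine ⟨n, rfl, ?_⟩
    rcases h with h | h | h
    · left; exact h
    · right; exact ⟨_, h⟩
    · right; exact ⟨_, h⟩

theorem mem_here_join {f σ : F} (h : σ ∈ (here f).join) :
    ∃ r, f = cons true nil (cons false nil (cons true nil (cons false nil r))) ∧
      ((∃ d, σ = cons true (lf d) (cons false nil r)) ∨
       (∃ d, σ = cons true nil (cons false (lf d) r))) := by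
  rcases here_cases f with h0 | ⟨r, rfl, h0⟩
  · simp [h0] at h
  · rw [h0] at h; simp at h
    refine ⟨r, rfl, ?_⟩
    rcases h with h | h | h | h
    · left; exact ⟨_, h⟩
    · left; exact ⟨_, h⟩
    · right; exact ⟨_, h⟩
    · right; exact ⟨_, h⟩

theorem win_cons_join (d : Bool) (c n : F) : (win (cons d c n)).join =
    (here (cons d c n)).join + ((win n).join).map (cons d c) := by
  rw [win, Multiset.join_add, AC_apply, Multiset.map_join]

theorem out0_eq (f : F) : out0 f = (start f).join + (win f).join := by
  rw [out0, spots0, map_add]; rfl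

/-! ### Undoing a reduction -/

def undS3 : F → Multiset F
  | cons true nil (cons false nil n) => {cons false nil (cons true nil (cons false nil n))}
  | cons false (cons _ nil nil) n => {cons false nil (cons true nil (cons false nil n))}
  | _ => 0

def undStart (σ : F) : Multiset F :=
  {cons true nil σ, cons false nil nil, cons false nil (cons true nil nil)} + undS3 σ

def undHere : F → Multiset F
  | cons true (cons _ nil nil) (cons false nil r) =>
      {cons true nil (cons false nil (cons true nil (cons false nil r)))}
  | cons true nil (cons false (cons _ nil nil) r) =>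
      {cons true nil (cons false nil (cons true nil (cons false nil r)))}
  | _ => 0

def undWin : F → Multiset F
  | nil => 0
  | cons d c n => undHere (cons d c n) + (undWin n).map (cons d c)

def und0 (σ : F) : Multiset F := undStart σ + undWin σ

theorem card_undS3 (σ : F) : Multiset.card (undS3 σ) ≤ 1 := by
  unfold undS3; split <;> simp

theorem card_undHere (σ : F) : Multiset.card (undHere σ) ≤ 1 := by
  unfold undHere; split <;> simp

theorem card_undWin (σ : F) : Multiset.card (undWin σ) ≤ len σ := by
  induction σ with
  | nil => simp [undWin]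
  | cons d c n _ ih =>
    rw [undWin, Multiset.card_add, Multiset.card_map, len]
    have := card_undHere (cons d c n)
    omega

theorem card_und0 (σ : F) : Multiset.card (und0 σ) ≤ 4 + len σ := by
  rw [und0, Multiset.card_add, undStart, Multiset.card_add]
  have := card_undS3 σ
  have := card_undWin σ
  simp
  omega

theorem mem_undStart {f σ : F} (h : σ ∈ (start f).join) : f ∈ undStart σ := by
  rw [undStart]
  rcases mem_start_join h with h | ⟨h1, h2⟩ | ⟨h1, d, h2⟩ | ⟨n, h1, h2 | ⟨d, h2⟩⟩
  · simp [h]
  · simp [h1]
  · simp [h1]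
  · subst h1 h2; simp [undS3]
  · subst h1 h2; simp [undS3, lf]

theorem mem_undWin {f : F} : ∀ {σ : F}, σ ∈ (win f).join → f ∈ undWin σ := by
  induction f with
  | nil => intro σ h; simp [win] at h
  | cons d c n _ ih =>
    intro σ h
    rw [win_cons_join, Multiset.mem_add] at h
    rcases h with h | h
    · obtain ⟨r, h1, ⟨e, h2⟩ | ⟨e, h2⟩⟩ := mem_here_join h
      · rw [h1]; subst h2; simp [undWin, undHere, lf]
      · rw [h1]; subst h2; simp [undWin, undHere, lf]
    · rw [Multiset.mem_map] at h
      obtain ⟨n', h1, rfl⟩ := h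
      rw [undWin, Multiset.mem_add]
      right
      exact Multiset.mem_map_of_mem _ (ih h1)

theorem mem_und0 {f σ : F} (h : σ ∈ out0 f) : f ∈ und0 σ := by
  rw [out0_eq, Multiset.mem_add] at h
  rw [und0, Multiset.mem_add]
  rcases h with h | h
  · left; exact mem_undStart h
  · right; exact mem_undWin h

theorem mem_ch {W U : F → Multiset F} (H : ∀ c c', c' ∈ W c → c ∈ U c') (f : F) :
    ∀ σ, σ ∈ ch AM W f → f ∈ ch AM U σ := by
  induction f with
  | nil => intro σ h; simp [ch] at h
  | cons d c n _ ih =>
    intro σ h
    rw [ch_cons, Multiset.mem_add, AM_apply, AM_apply, Multiset.mem_map, Multiset.mem_map] at h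
    rcases h with ⟨c', h1, rfl⟩ | ⟨n', h1, rfl⟩
    · rw [ch_cons, Multiset.mem_add, AM_apply]
      left
      exact Multiset.mem_map_of_mem _ (H _ _ h1)
    · rw [ch_cons, Multiset.mem_add, AM_apply, AM_apply]
      right
      exact Multiset.mem_map_of_mem _ (ih _ h1)

theorem mem_all {W U : F → Multiset F} (H : ∀ c c', c' ∈ W c → c ∈ U c') (f : F) :
    ∀ σ, σ ∈ all AM W f → f ∈ all AM U σ := by
  have key : ∀ f σ, σ ∈ allS AM W f → f ∈ allS AM U σ := by
    intro f
    induction f with
    | nil => intro σ h; simp [allS] at h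
    | cons d c n ihc ih =>
      intro σ h
      rw [allS_cons, Multiset.mem_add, AM_apply, AM_apply, Multiset.mem_map,
        Multiset.mem_map] at h
      rcases h with ⟨c', h1, rfl⟩ | ⟨n', h1, rfl⟩
      · rw [allS_cons, Multiset.mem_add, AM_apply]
        left
        refine Multiset.mem_map_of_mem (fun x => cons d x n) ?_
        rw [all, Multiset.mem_add] at h1 ⊢
        rcases h1 with h1 | h1
        · left; exact H _ _ h1
        · right; exact ihc _ h1
      · rw [allS_cons, Multiset.mem_add, AM_apply, AM_apply]
        right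
        exact Multiset.mem_map_of_mem _ (ih _ h1)
  intro σ h
  rw [all, Multiset.mem_add] at h ⊢
  rcases h with h | h
  · left; exact H _ _ h
  · right; exact key _ _ h

theorem mem_dep {W U : F → Multiset F} (H : ∀ c c', c' ∈ W c → c ∈ U c') (a : ℕ) :
    ∀ f σ, σ ∈ dep AM W a f → f ∈ dep AM U a σ := by
  induction a with
  | zero => exact H
  | succ a ih => intro f σ h; exact mem_ch ih f σ h

/-! ### How the numerical data change -/

/-- Weighted degree data. -/
def Wt (a b : ℕ) (v : F) : ℕ := if ht v ≤ b then dep AN len a v else 0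

theorem dep_len_nil (a : ℕ) : dep AN len a nil = 0 := by
  cases a <;> rfl

theorem Wt_nil (a b : ℕ) : Wt a b nil = 0 := by
  unfold Wt; rw [dep_len_nil]; simp

theorem Wt_mono (a : ℕ) {b b' : ℕ} (h : b ≤ b') (v : F) : Wt a b v ≤ Wt a b' v := by
  unfold Wt
  split_ifs
  · exact le_rfl
  · omega
  · exact Nat.zero_le _
  · exact le_rfl

theorem allS_Wt_mono (a : ℕ) {b b' : ℕ} (h : b ≤ b') (v : F) :
    allS AN (Wt a b) v ≤ allS AN (Wt a b') v := by
  rw [allS_eq_ch, allS_eq_ch]
  exact ch_mono' AN (fun v => all_mono' AN (fun v => Wt_mono a h v) v) v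

structure Cmp (t : ℕ) (f σ : F) : Prop where
  ht1 : ht σ ≤ ht f + 1
  ht2 : ht f ≤ ht σ + 1
  sz : size σ + 1 = size f
  dp : ∀ a, dep AN len a σ ≤ dep AN len a f + (if a = t + 1 then 1 else 0)
  al : ∀ a b, allS AN (Wt a b) σ ≤ allS AN (Wt a (b + 1)) f + (if a ≤ t then 1 else 0)

theorem Cmp.wt {t : ℕ} {f σ : F} (h : Cmp t f σ) (a b : ℕ) :
    Wt a b σ ≤ Wt a (b + 1) f + (if a = t + 1 then 1 else 0) := by
  unfold Wt
  have := h.ht2
  have := h.dp a
  split_ifs at * <;> omega

theorem Cmp.allw {t : ℕ} {f σ : F} (h : Cmp t f σ) (a b : ℕ) :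
    all AN (Wt a b) σ ≤ all AN (Wt a (b + 1)) f + (if a ≤ t + 1 then 1 else 0) := by
  have h1 := h.wt a b
  have h2 := h.al a b
  unfold all
  split_ifs at * <;> omega

theorem Cmp.child {t : ℕ} {c c' : F} (h : Cmp t c c') (d : Bool) (n : F) :
    Cmp (t + 1) (cons d c n) (cons d c' n) := by
  refine ⟨?_, ?_, ?_, ?_, ?_⟩
  · have := h.ht1; simp only [ht]; omega
  · have := h.ht2; simp only [ht]; omega
  · have := h.sz; simp only [size]; omega
  · intro a
    cases a with
    | zero => simp [dep, len]
    | succ a =>
      simp only [dep, ch_cons, AN_apply]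
      have := h.dp a
      split_ifs at * <;> omega
  · intro a b
    simp only [allS_cons, AN_apply]
    have h1 := h.allw a b
    have h2 := allS_Wt_mono a (Nat.le_succ b) n
    have e : b.succ = b + 1 := rfl
    rw [e] at h2
    split_ifs at * <;> omega

theorem Cmp.next {t : ℕ} {n n' : F} (h : Cmp t n n') (d : Bool) (c : F) :
    Cmp t (cons d c n) (cons d c n') := by
  refine ⟨?_, ?_, ?_, ?_, ?_⟩
  · have := h.ht1; simp only [ht]; omega
  · have := h.ht2; simp only [ht]; omega
  · have := h.sz; simp only [size]; omega
  · intro a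
    cases a with
    | zero =>
      have := h.dp 0
      simp only [dep, len] at *
      split_ifs at * <;> omega
    | succ a =>
      have := h.dp (a + 1)
      simp only [dep, ch_cons, AN_apply] at *
      split_ifs at * <;> omega
  · intro a b
    simp only [allS_cons, AN_apply]
    have h1 := h.al a b
    have h2 : all AN (Wt a b) c ≤ all AN (Wt a (b + 1)) c :=
      all_mono' AN (fun v => Wt_mono a (Nat.le_succ b) v) c
    split_ifs at * <;> omega

theorem ht_lf (d : Bool) : ht (lf d) = 1 := by simp [lf, ht]
theorem size_lf (d : Bool) : size (lf d) = 1 := by simp [lf, size]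
theorem dep_lf (d : Bool) (a : ℕ) : dep AN len a (lf d) = if a = 0 then 1 else 0 := by
  cases a with
  | zero => simp [dep, lf, len]
  | succ a => simp only [dep, lf, ch_cons, AN_apply, ch_nil]; rw [dep_len_nil]; simp
theorem Wt_lf_le (d : Bool) (a b : ℕ) : Wt a b (lf d) ≤ if a = 0 then 1 else 0 := by
  unfold Wt; rw [dep_lf]; split_ifs <;> omega
theorem allS_lf (d : Bool) (a b : ℕ) : allS AN (Wt a b) (lf d) = 0 := by
  simp only [lf, allS_cons, AN_apply, allS_nil, all, Wt_nil, add_zero]

theorem cmp_R1 (n : F) : Cmp 0 (cons true nil n) n := by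
  refine ⟨?_, ?_, ?_, ?_, ?_⟩
  · simp only [ht]; omega
  · simp only [ht]; omega
  · simp only [size]; omega
  · intro a
    cases a with
    | zero => simp only [dep, len]; omega
    | succ a => simp only [dep, ch_cons, AN_apply]; omega
  · intro a b
    simp only [allS_cons, AN_apply]
    have h2 := allS_Wt_mono a (Nat.le_succ b) n
    have e : b.succ = b + 1 := rfl
    rw [e] at h2
    omega

theorem cmp_R2 : Cmp 0 (cons false nil nil) nil := by
  refine ⟨?_, ?_, ?_, ?_, ?_⟩
  · simp [ht]
  · simp [ht]
  · simp [size]
  · intro a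
    rw [dep_len_nil]; omega
  · intro a b
    simp [allS_nil]

theorem cmp_R3 (d : Bool) : Cmp 0 (cons false nil (cons true nil nil)) (lf d) := by
  refine ⟨?_, ?_, ?_, ?_, ?_⟩
  · rw [ht_lf]; simp [ht]
  · rw [ht_lf]; simp [ht]
  · rw [size_lf]; simp [size]
  · intro a
    rw [dep_lf]
    cases a with
    | zero => simp [dep, len]
    | succ a => simp
  · intro a b
    rw [allS_lf]; omega

theorem cmp_R4a (n : F) : Cmp 0 (cons false nil (cons true nil (cons false nil n)))
    (cons true nil (cons false nil n)) := by
  refine ⟨?_, ?_, ?_, ?_, ?_⟩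
  · simp only [ht]; omega
  · simp only [ht]; omega
  · simp only [size]; omega
  · intro a
    cases a with
    | zero => simp only [dep, len]; omega
    | succ a => simp only [dep, ch_cons, AN_apply]; omega
  · intro a b
    simp only [allS_cons, AN_apply]
    have h2 := allS_Wt_mono a (Nat.le_succ b) n
    have e : b.succ = b + 1 := rfl
    rw [e] at h2
    have h3 : all AN (Wt a b) nil ≤ all AN (Wt a (b + 1)) nil :=
      all_mono' AN (fun v => Wt_mono a (Nat.le_succ b) v) nil
    omega

theorem cmp_R4b (d : Bool) (n : F) : Cmp 0 (cons false nil (cons true nil (cons false nil n)))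
    (cons false (lf d) n) := by
  refine ⟨?_, ?_, ?_, ?_, ?_⟩
  · simp only [ht, ht_lf]; omega
  · simp only [ht, ht_lf]; omega
  · simp only [size, size_lf]; omega
  · intro a
    cases a with
    | zero => simp only [dep, len]; omega
    | succ a =>
      simp only [dep, ch_cons, AN_apply, dep_lf]
      split_ifs <;> omega
  · intro a b
    simp only [allS_cons, AN_apply, all, allS_lf, allS_nil, Wt_nil]
    have h2 := allS_Wt_mono a (Nat.le_succ b) n
    have e : b.succ = b + 1 := rfl
    rw [e] at h2
    have h3 := Wt_lf_le d a b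
    split_ifs at * <;> omega

theorem cmp_Ha (d : Bool) (r : F) :
    Cmp 0 (cons true nil (cons false nil (cons true nil (cons false nil r))))
    (cons true (lf d) (cons false nil r)) := by
  refine ⟨?_, ?_, ?_, ?_, ?_⟩
  · simp only [ht, ht_lf]; omega
  · simp only [ht, ht_lf]; omega
  · simp only [size, size_lf]; omega
  · intro a
    cases a with
    | zero => simp only [dep, len]; omega
    | succ a =>
      simp only [dep, ch_cons, AN_apply, dep_lf]
      split_ifs <;> omega
  · intro a b
    simp only [allS_cons, AN_apply, all, allS_lf, allS_nil, Wt_nil]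
    have h2 := allS_Wt_mono a (Nat.le_succ b) r
    have e : b.succ = b + 1 := rfl
    rw [e] at h2
    have h3 := Wt_lf_le d a b
    split_ifs at * <;> omega

theorem cmp_Hb (d : Bool) (r : F) :
    Cmp 0 (cons true nil (cons false nil (cons true nil (cons false nil r))))
    (cons true nil (cons false (lf d) r)) := by
  refine ⟨?_, ?_, ?_, ?_, ?_⟩
  · simp only [ht, ht_lf]; omega
  · simp only [ht, ht_lf]; omega
  · simp only [size, size_lf]; omega
  · intro a
    cases a with
    | zero => simp only [dep, len]; omega
    | succ a =>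
      simp only [dep, ch_cons, AN_apply, dep_lf]
      split_ifs <;> omega
  · intro a b
    simp only [allS_cons, AN_apply, all, allS_lf, allS_nil, Wt_nil]
    have h2 := allS_Wt_mono a (Nat.le_succ b) r
    have e : b.succ = b + 1 := rfl
    rw [e] at h2
    have h3 := Wt_lf_le d a b
    split_ifs at * <;> omega

theorem cmp_start {f σ : F} (h : σ ∈ (start f).join) : Cmp 0 f σ := by
  rcases mem_start_join h with h | ⟨h1, h2⟩ | ⟨h1, d, h2⟩ | ⟨n, h1, h2 | ⟨d, h2⟩⟩
  · rw [h]; exact cmp_R1 σ
  · subst h1 h2; exact cmp_R2
  · subst h1 h2; exact cmp_R3 d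
  · subst h1 h2; exact cmp_R4a n
  · subst h1 h2; exact cmp_R4b d n

theorem cmp_win {f : F} : ∀ {σ : F}, σ ∈ (win f).join → Cmp 0 f σ := by
  induction f with
  | nil => intro σ h; simp [win] at h
  | cons d c n _ ih =>
    intro σ h
    rw [win_cons_join, Multiset.mem_add] at h
    rcases h with h | h
    · obtain ⟨r, h1, ⟨e, h2⟩ | ⟨e, h2⟩⟩ := mem_here_join h
      · rw [h1]; subst h2; exact cmp_Ha e r
      · rw [h1]; subst h2; exact cmp_Hb e r
    · rw [Multiset.mem_map] at h
      obtain ⟨n', h1, rfl⟩ := h
      exact (ih h1).next d c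

theorem cmp_out0 {f σ : F} (h : σ ∈ out0 f) : Cmp 0 f σ := by
  rw [out0_eq, Multiset.mem_add] at h
  rcases h with h | h
  · exact cmp_start h
  · exact cmp_win h

theorem cmp_allS {f : F} : ∀ {σ : F}, σ ∈ allS AM out0 f → ∃ t, Cmp t f σ := by
  induction f with
  | nil => intro σ h; simp [allS] at h
  | cons d c n ihc ih =>
    intro σ h
    rw [allS_cons, Multiset.mem_add, AM_apply, AM_apply, Multiset.mem_map,
      Multiset.mem_map] at h
    rcases h with ⟨c', h1, rfl⟩ | ⟨n', h1, rfl⟩
    · rw [all, Multiset.mem_add] at h1
      rcases h1 with h1 | h1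
      · exact ⟨1, (cmp_out0 h1).child d n⟩
      · obtain ⟨t, ht⟩ := ihc h1
        exact ⟨t + 1, ht.child d n⟩
    · obtain ⟨t, ht⟩ := ih h1
      exact ⟨t, ht.next d c⟩

theorem cmp_all {f σ : F} (h : σ ∈ all AM out0 f) : ∃ t, Cmp t f σ := by
  rw [all, Multiset.mem_add] at h
  rcases h with h | h
  · exact ⟨0, cmp_out0 h⟩
  · exact cmp_allS h

theorem cmp_dep (a : ℕ) : ∀ {f σ : F}, σ ∈ dep AM out0 a f → Cmp a f σ := by
  induction a with
  | zero => intro f σ h; exact cmp_out0 h
  | succ a ih =>
    intro f
    induction f with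
    | nil => intro σ h; simp [dep, ch] at h
    | cons d c n _ ihn =>
      intro σ h
      simp only [dep] at h ihn
      rw [ch_cons, Multiset.mem_add, AM_apply, AM_apply, Multiset.mem_map,
        Multiset.mem_map] at h
      rcases h with ⟨c', h1, rfl⟩ | ⟨n', h1, rfl⟩
      · exact (ih h1).child d n
      · exact (ihn h1).next d c

end F

end RamseyTower
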