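import Pool.Agent.W_MP_3aefc9_co.Lists
import Pool.Agent.W_MP_3aefc9_co.Spots

/-!
# Every class is realised by deleting one element
-/

namespace RamseyTower

/-- `b'` is obtained from `b` by replacing two adjacent entries by their maximum. -/
def GD (b b' : List ℕ) : Prop :=
  ∃ l1 u v l2, b = l1 ++ u :: v :: l2 ∧ b' = l1 ++ (max u v) :: l2

/-- All merges of `b` have distinct adjacent entries. -/
def Gd (b : List ℕ) : Prop := ∀ b', GD b b' → b'.IsChain (· ≠ ·)

theorem GD.append {b b' : List ℕ} (h : GD b b') (l : List ℕ) : GD (l ++ b) (l ++ b') := by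
  obtain ⟨l1, u, v, l2, rfl, rfl⟩ := h
  exact ⟨l ++ l1, u, v, l2, by simp, by simp⟩

theorem GD.cons {b b' : List ℕ} (h : GD b b') (x : ℕ) : GD (x :: b) (x :: b') :=
  h.append [x]

theorem Gd.suffix {l r : List ℕ} (h : Gd (l ++ r)) : Gd r := by
  intro r' hr
  have := h _ (hr.append l)
  exact (List.isChain_append.1 this).2.1

theorem not_GD_short {a : List ℕ} {b' : List ℕ} (ha : a.length ≤ 1) : ¬ GD a b' := by
  rintro ⟨l1, u, v, l2, rfl, _⟩
  simp only [List.length_append, List.length_cons] at ha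
  omega

theorem lift_run {d : Bool} : ∀ (L : List ℕ) (y : ℕ) (b : List ℕ),
    (L ++ [y]).IsChain (up d) → GD (dl (L ++ [y])) b →
    ∃ L', L' ≠ [] ∧ L'.head? = L.head? ∧ (L' ++ [y]).IsChain (up d) ∧ b = dl (L' ++ [y]) ∧
      (∀ r, GD (L ++ y :: r) (L' ++ y :: r)) ∧ ∃ l1 x l2, L = l1 ++ x :: l2 ∧ L' = l1 ++ l2
  | [], y, b, _, h => absurd h (not_GD_short (by simp [dl]))
  | [x], y, b, _, h => absurd h (not_GD_short (by simp [dl]))
  | x :: z :: L0, y, b, hm, h => by
    simp only [List.cons_append] at hm h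
    rw [List.isChain_cons_cons] at hm
    obtain ⟨hxz, hm⟩ := hm
    rw [dl_cons_cons] at h
    obtain ⟨l1, u, v, l2, h1, h2⟩ := h
    cases l1 with
    | nil =>
      simp only [List.nil_append, List.cons.injEq] at h1 h2
      obtain ⟨rfl, h1⟩ := h1
      obtain ⟨w, l3, hw, hw'⟩ : ∃ w l3, L0 ++ [y] = w :: l3 ∧
          ∀ r, ∃ l4, L0 ++ y :: r = w :: l4 := by
        cases L0 with
        | nil => exact ⟨y, [], rfl, fun r => ⟨r, rfl⟩⟩
        | cons w l => exact ⟨w, l ++ [y], rfl, fun r => ⟨l ++ y :: r, rfl⟩⟩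
      rw [hw] at hm h1
      rw [List.isChain_cons_cons] at hm
      obtain ⟨hzw, hm⟩ := hm
      rw [dl_cons_cons, List.cons.injEq] at h1
      obtain ⟨rfl, rfl⟩ := h1
      refine ⟨x :: L0, by simp, rfl, ?_, ?_, ?_, [x], z, L0, rfl, rfl⟩
      · rw [List.cons_append, hw]
        exact List.isChain_cons_cons.2 ⟨up_trans hxz hzw, hm⟩
      · rw [List.cons_append, hw, dl_cons_cons, h2, dlt_max hxz hzw]
      · intro r
        obtain ⟨l4, h4⟩ := hw' r
        simp only [List.cons_append]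
        rw [h4]
        cases d
        · rw [up_false] at hxz
          exact ⟨[], x, z, w :: l4, rfl, by simp [max_eq_left hxz.le]⟩
        · rw [up_true] at hzw
          exact ⟨[x], z, w, l4, rfl, by simp [max_eq_right hzw.le]⟩
    | cons a l1 =>
      simp only [List.cons_append, List.cons.injEq] at h1 h2
      obtain ⟨rfl, h1⟩ := h1
      obtain ⟨L', h3, h4, h5, h6, h7, m1, x0, m2, h8, h9⟩ :=
        lift_run (z :: L0) y (l1 ++ max u v :: l2) hm ⟨l1, u, v, l2, h1, rfl⟩
      obtain ⟨z', L3, rfl⟩ := List.exists_cons_of_ne_nil h3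
      simp only [List.head?_cons, Option.some.injEq] at h4
      subst h4
      refine ⟨x :: z' :: L3, by simp, rfl, ?_, ?_, ?_, x :: m1, x0, m2, by simp [h8],
        by simp [h9]⟩
      · simp only [List.cons_append] at h5 ⊢
        exact List.isChain_cons_cons.2 ⟨hxz, h5⟩
      · simp only [List.cons_append] at h6 ⊢
        rw [dl_cons_cons, h2, h6]
      · intro r
        simp only [List.cons_append] at h7 ⊢
        exact (h7 r).cons x

/-- Every list with this shape has a merge whose shape lies in the class. -/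
def NR (f : F) (O : Multiset F) : Prop :=
  ∀ b, Gd b → Sh b f → ∃ b' o, GD b b' ∧ o ∈ O ∧ Sh b' o

/-- The same, where the first element and the first direction are kept. -/
def SR (f : F) (O : Multiset F) : Prop :=
  ∀ b, Gd b → Sh b f → ∃ b' o, GD b b' ∧ b'.head? = b.head? ∧ F.dir o = F.dir f ∧
    o ∈ O ∧ Sh b' o

theorem SR.nr {f : F} {O : Multiset F} (h : SR f O) : NR f O := by
  intro b hb hs
  obtain ⟨b', o, h1, _, _, h4, h5⟩ := h b hb hs
  exact ⟨b', o, h1, h4, h5⟩

theorem sh_cons_inv {b : List ℕ} {d : Bool} {c n : F} (h : Sh b (F.cons d c n)) :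
    ∃ L y r, b = L ++ y :: r ∧ L ≠ [] ∧ (L ++ [y]).IsChain (up d) ∧ Sh (dl (L ++ [y])) c ∧
      Sh (y :: r) n ∧ F.dir n ≠ some d := by
  cases h with
  | run d L y r c n hL hm hc hn hd => exact ⟨L, y, r, rfl, hL, hm, hc, hn, hd⟩

theorem Gd_dl {d : Bool} {L : List ℕ} {y : ℕ} (hm : (L ++ [y]).IsChain (up d)) :
    Gd (dl (L ++ [y])) := by
  intro b hb
  obtain ⟨L', _, _, h5, rfl, _⟩ := lift_run L y b hm hb
  exact dl_chain _ h5

theorem SR.child {c : F} {O : Multiset F} (h : NR c O) (d : Bool) (n : F) :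
    SR (F.cons d c n) (O.map (fun x => F.cons d x n)) := by
  intro b _ hs
  obtain ⟨L, y, r, rfl, hL, hm, hc, hn, hd⟩ := sh_cons_inv hs
  obtain ⟨b', o, h1, h2, h3⟩ := h _ (Gd_dl hm) hc
  obtain ⟨L', h4, h5, h6, rfl, h8, _⟩ := lift_run L y b' hm h1
  refine ⟨L' ++ y :: r, F.cons d o n, h8 r, ?_, rfl, Multiset.mem_map_of_mem _ h2,
    Sh.run d L' y r o n h4 h6 h3 hn hd⟩
  obtain ⟨a, L2, rfl⟩ := List.exists_cons_of_ne_nil hL
  obtain ⟨a', L2', rfl⟩ := List.exists_cons_of_ne_nil h4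
  simpa using h5

theorem SR.next {n : F} {O : Multiset F} (h : SR n O) (d : Bool) (c : F) :
    SR (F.cons d c n) (O.map (F.cons d c)) := by
  intro b hg hs
  obtain ⟨L, y, r, rfl, hL, hm, hc, hn, hd⟩ := sh_cons_inv hs
  obtain ⟨b', o, h1, h2, h3, h4, h5⟩ := h _ hg.suffix hn
  have h6 : ∃ r', b' = y :: r' := by
    cases b' with
    | nil => simp at h2
    | cons y' r' =>
      simp only [List.head?_cons, Option.some.injEq] at h2
      exact ⟨r', by rw [h2]⟩
  obtain ⟨r', rfl⟩ := h6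
  refine ⟨L ++ y :: r', F.cons d c o, h1.append L, ?_, rfl, Multiset.mem_map_of_mem _ h4,
    Sh.run d L y r' c o hL hm hc h5 (by rw [h3]; exact hd)⟩
  obtain ⟨a, L2, rfl⟩ := List.exists_cons_of_ne_nil hL
  simp

theorem sh_nil_inv {b : List ℕ} (h : Sh b F.nil) : ∃ x, b = [x] := by
  cases h with
  | one x => exact ⟨x, rfl⟩

theorem sh_leaf_inv {b : List ℕ} {d : Bool} {n : F} (h : Sh b (F.cons d F.nil n)) :
    ∃ x y r, b = x :: y :: r ∧ up d x y ∧ Sh (y :: r) n ∧ F.dir n ≠ some d := by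
  obtain ⟨L, y, r, rfl, hL, hm, hc, hn, hd⟩ := sh_cons_inv h
  obtain ⟨x, L', rfl⟩ := List.exists_cons_of_ne_nil hL
  have h1 := hc.size
  rw [List.cons_append, length_dl] at h1
  simp only [F.size, List.length_append, List.length_cons, List.length_nil] at h1
  have h2 : L' = [] := List.length_eq_zero_iff.1 (by omega)
  subst h2
  refine ⟨x, y, r, rfl, ?_, hn, hd⟩
  simpa using hm

theorem sh_leaf {d : Bool} {x y : ℕ} {r : List ℕ} {n : F} (hxy : up d x y)
    (hn : Sh (y :: r) n) (hd : F.dir n ≠ some d) : Sh (x :: y :: r) (F.cons d F.nil n) := by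
  refine Sh.run d [x] y r F.nil n (by simp) (by simpa using hxy) ?_ hn hd
  simp only [List.cons_append, List.nil_append, dl]
  exact Sh.one _

theorem sh_pair {e : Bool} {x y : ℕ} (h : up e x y) : Sh [x, y] (F.lf e) :=
  sh_leaf h (Sh.one y) (by simp [F.dir])

theorem sh_lf {d : Bool} {x y z : ℕ} {r : List ℕ} {n : F} (hxy : up d x y) (hyz : up d y z)
    (hn : Sh (z :: r) n) (hd : F.dir n ≠ some d) :
    ∃ e, Sh (x :: y :: z :: r) (F.cons d (F.lf e) n) := by
  obtain ⟨e, he⟩ := up_total (dlt_ne hxy hyz)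
  refine ⟨e, Sh.run d [x, y] z r (F.lf e) n (by simp) ?_ ?_ hn hd⟩
  · simpa using ⟨hxy, hyz⟩
  · simp only [List.cons_append, List.nil_append, dl]
    exact sh_pair he

theorem nr_start {f : F} {O : Multiset F} (hO : O ∈ F.start f) : NR f O := by
  intro b hg hs
  rcases F.start_cases f with h0 | ⟨n, rfl, h0⟩ | ⟨rfl, h0⟩ | ⟨rfl, h0⟩ | ⟨n, rfl, h0⟩
  · rw [h0] at hO; simp at hO
  · rw [h0, Multiset.mem_singleton] at hO
    subst hO
    obtain ⟨x, y, r, rfl, hxy, hn, _⟩ := sh_leaf_inv hs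
    rw [up_true] at hxy
    exact ⟨y :: r, n, ⟨[], x, y, r, rfl, by simp [max_eq_right hxy.le]⟩, by simp, hn⟩
  · rw [h0, Multiset.mem_singleton] at hO
    subst hO
    obtain ⟨x, y, r, rfl, hxy, hn, _⟩ := sh_leaf_inv hs
    obtain ⟨y', hy'⟩ := sh_nil_inv hn
    simp only [List.cons.injEq] at hy'
    obtain ⟨rfl, rfl⟩ := hy'
    rw [up_false] at hxy
    exact ⟨[x], F.nil, ⟨[], x, y, [], rfl, by simp [max_eq_left hxy.le]⟩, by simp, Sh.one x⟩
  · rw [h0, Multiset.mem_singleton] at hO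
    subst hO
    obtain ⟨x, y, r, rfl, hxy, hn, _⟩ := sh_leaf_inv hs
    obtain ⟨y', z, r2, hy', hyz, hn2, _⟩ := sh_leaf_inv hn
    simp only [List.cons.injEq] at hy'
    obtain ⟨rfl, rfl⟩ := hy'
    obtain ⟨z', hz'⟩ := sh_nil_inv hn2
    simp only [List.cons.injEq] at hz'
    obtain ⟨rfl, rfl⟩ := hz'
    rw [up_true] at hyz
    have hGD : GD [x, y, z] [x, z] := ⟨[x], y, z, [], rfl, by simp [max_eq_right hyz.le]⟩
    have hne : x ≠ z := by
      have := hg _ hGD
      simpa using this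
    obtain ⟨e, he⟩ := up_total hne
    refine ⟨[x, z], F.lf e, hGD, ?_, sh_pair he⟩
    cases e <;> simp
  · rw [h0, Multiset.mem_singleton] at hO
    subst hO
    obtain ⟨x, y, r, rfl, hxy, hn, _⟩ := sh_leaf_inv hs
    obtain ⟨y', z, r2, hy', hyz, hn2, _⟩ := sh_leaf_inv hn
    simp only [List.cons.injEq] at hy'
    obtain ⟨rfl, rfl⟩ := hy'
    obtain ⟨z', w, r3, hz', hzw, hn3, hd3⟩ := sh_leaf_inv hn2
    simp only [List.cons.injEq] at hz'
    obtain ⟨rfl, rfl⟩ := hz'
    have hyz' := hyz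
    rw [up_true] at hyz'
    have hGD : GD (x :: y :: z :: w :: r3) (x :: z :: w :: r3) :=
      ⟨[x], y, z, w :: r3, rfl, by simp [max_eq_right hyz'.le]⟩
    have hne : x ≠ z := by
      have := hg _ hGD
      rw [List.isChain_cons_cons] at this
      exact this.1
    obtain ⟨e, he⟩ := up_total hne
    cases e with
    | true =>
      refine ⟨_, F.cons true F.nil (F.cons false F.nil n), hGD, by simp, ?_⟩
      exact sh_leaf he hn2 (by simp [F.dir])
    | false =>
      obtain ⟨e', he'⟩ := sh_lf he hzw hn3 hd3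
      refine ⟨_, F.cons false (F.lf e') n, hGD, ?_, he'⟩
      cases e' <;> simp

theorem sr_here {f : F} {O : Multiset F} (hO : O ∈ F.here f) : SR f O := by
  intro b hg hs
  rcases F.here_cases f with h0 | ⟨r0, rfl, h0⟩
  · rw [h0] at hO; simp at hO
  · rw [h0, Multiset.mem_singleton] at hO
    subst hO
    obtain ⟨x, y, r, rfl, hxy, hn, _⟩ := sh_leaf_inv hs
    obtain ⟨y', z, r2, hy', hyz, hn2, _⟩ := sh_leaf_inv hn
    simp only [List.cons.injEq] at hy'
    obtain ⟨rfl, rfl⟩ := hy'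
    obtain ⟨z', w, r3, hz', hzw, hn3, _⟩ := sh_leaf_inv hn2
    simp only [List.cons.injEq] at hz'
    obtain ⟨rfl, rfl⟩ := hz'
    obtain ⟨w', v, r4, hw', hwv, hn4, hd4⟩ := sh_leaf_inv hn3
    simp only [List.cons.injEq] at hw'
    obtain ⟨rfl, rfl⟩ := hw'
    have hzw' := hzw
    rw [up_true] at hzw'
    have hGD : GD (x :: y :: z :: w :: v :: r4) (x :: y :: w :: v :: r4) :=
      ⟨[x, y], z, w, v :: r4, rfl, by simp [max_eq_right hzw'.le]⟩
    have hne : y ≠ w := by
      have := hg _ hGD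
      rw [List.isChain_cons_cons, List.isChain_cons_cons] at this
      exact this.2.1
    obtain ⟨e, he⟩ := up_total hne
    cases e with
    | true =>
      obtain ⟨e', he'⟩ := sh_lf hxy he hn3 (by simp [F.dir])
      refine ⟨_, F.cons true (F.lf e') (F.cons false F.nil r0), hGD, rfl, rfl, ?_, he'⟩
      cases e' <;> simp
    | false =>
      obtain ⟨e', he'⟩ := sh_lf he hwv hn4 hd4
      refine ⟨_, F.cons true F.nil (F.cons false (F.lf e') r0), hGD, rfl, rfl, ?_,
        sh_leaf hxy he' (by simp [F.dir])⟩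
      cases e' <;> simp

theorem sr_win {f : F} : ∀ {O : Multiset F}, O ∈ F.win f → SR f O := by
  induction f with
  | nil => intro O hO; simp [F.win] at hO
  | cons d c n _ ih =>
    intro O hO
    rw [F.win, Multiset.mem_add, F.AC_apply, Multiset.mem_map] at hO
    rcases hO with hO | ⟨O', h1, rfl⟩
    · exact sr_here hO
    · exact (ih h1).next d c

theorem nr_spots0 {f : F} {O : Multiset F} (hO : O ∈ F.spots0 f) : NR f O := by
  rw [F.spots0, Multiset.mem_add] at hO
  rcases hO with hO | hO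
  · exact nr_start hO
  · exact (sr_win hO).nr

theorem sr_allS {f : F} : ∀ {O : Multiset F}, O ∈ F.allS F.AC F.spots0 f → SR f O := by
  induction f with
  | nil => intro O hO; simp [F.allS] at hO
  | cons d c n ihc ihn =>
    intro O hO
    rw [F.allS_cons, Multiset.mem_add, F.AC_apply, F.AC_apply, Multiset.mem_map,
      Multiset.mem_map] at hO
    rcases hO with ⟨O', h1, rfl⟩ | ⟨O', h1, rfl⟩
    · refine SR.child ?_ d n
      rw [F.all, Multiset.mem_add] at h1
      rcases h1 with h1 | h1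
      · exact nr_spots0 h1
      · exact (ihc h1).nr
    · exact (ihn h1).next d c

theorem nr_spots {f : F} {O : Multiset F} (hO : O ∈ F.spots f) : NR f O := by
  rw [F.spots, F.all, Multiset.mem_add] at hO
  rcases hO with hO | hO
  · exact nr_spots0 hO
  · exact (sr_allS hO).nr

/-- Top level: an increasing list whose difference sequence has shape `f`. -/
theorem realize {f : F} {O : Multiset F} (hO : O ∈ F.spots f) (l : List ℕ)
    (hl : l.IsChain (up true)) (hs : Sh (dl l) f) :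
    ∃ l1 x l2 o, l = l1 ++ x :: l2 ∧ o ∈ O ∧ Sh (dl (l1 ++ l2)) o := by
  rcases List.eq_nil_or_concat l with rfl | ⟨L, y, rfl⟩
  · exact absurd rfl hs.ne_nil
  · rw [List.concat_eq_append] at hl hs ⊢
    obtain ⟨b', o, h1, h2, h3⟩ := nr_spots hO _ (Gd_dl hl) hs
    obtain ⟨L', _, _, _, rfl, _, l1, x, l2, rfl, rfl⟩ := lift_run L y b' hl h1
    refine ⟨l1, x, l2 ++ [y], o, by simp, h2, ?_⟩
    simpa using h3

end RamseyTower
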