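import Pool.Agent.W_MP_3aefc9_co.Select
import Pool.Agent.W_MP_3aefc9_co.Realize

/-!
# The lower bound
-/

namespace RamseyTower

/-- The increasing list of the elements of a set. -/
def slist {n : ℕ} (S : Finset (Fin n)) : List ℕ := (S.map Fin.valEmbedding).sort (· ≤ ·)

theorem slist_chain {n : ℕ} (S : Finset (Fin n)) : (slist S).IsChain (up true) := by
  have h := (Finset.sortedLT_sort (S.map Fin.valEmbedding)).pairwise
  have h2 : List.Pairwise (up true) (slist S) := by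
    refine List.Pairwise.imp ?_ h
    intro a b hab
    exact (up_true a b).2 hab
  exact h2.isChain

theorem mem_slist {n : ℕ} {S : Finset (Fin n)} {x : ℕ} :
    x ∈ slist S ↔ ∃ y ∈ S, (y : ℕ) = x := by
  rw [slist, Finset.mem_sort, Finset.mem_map]
  rfl

theorem length_slist {n : ℕ} (S : Finset (Fin n)) : (slist S).length = S.card := by
  rw [slist, Finset.length_sort, Finset.card_map]

theorem slist_erase {n : ℕ} {T : Finset (Fin n)} {l1 l2 : List ℕ} {x : ℕ}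
    (h : slist T = l1 ++ x :: l2) :
    ∃ S : Finset (Fin n), S ⊆ T ∧ S.card + 1 = T.card ∧ slist S = l1 ++ l2 := by
  classical
  have hx : x ∈ slist T := by rw [h]; simp
  obtain ⟨y, hy, hyx⟩ := mem_slist.1 hx
  refine ⟨T.erase y, Finset.erase_subset _ _, Finset.card_erase_add_one hy, ?_⟩
  have hnd : (slist T).Nodup := Finset.sort_nodup _ _
  have hpw : (slist T).Pairwise (· ≤ ·) := Finset.pairwise_sort _ _
  rw [h] at hnd hpw
  have hsub : (l1 ++ l2).Sublist (l1 ++ x :: l2) :=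
    List.Sublist.append_left (List.sublist_cons_self x l2) l1
  have hnd2 : (l1 ++ l2).Nodup := hnd.sublist hsub
  have hpw2 : (l1 ++ l2).Pairwise (· ≤ ·) := hpw.sublist hsub
  have hxn : x ∉ l1 ++ l2 := by
    have := List.nodup_middle.1 hnd
    exact (List.nodup_cons.1 this).1
  have hset : (T.erase y).map Fin.valEmbedding = (l1 ++ l2).toFinset := by
    ext z
    rw [Finset.mem_map, List.mem_toFinset]
    constructor
    · rintro ⟨w, hw, hwz⟩
      rw [Finset.mem_erase] at hw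
      have hz : z ∈ slist T := mem_slist.2 ⟨w, hw.2, hwz⟩
      rw [h, List.mem_append, List.mem_cons] at hz
      rw [List.mem_append]
      rcases hz with hz | hz | hz
      · left; exact hz
      · exfalso
        apply hw.1
        apply Fin.ext
        rw [hyx, ← hz]; exact hwz
      · right; exact hz
    · intro hz
      have hz2 : z ∈ slist T := by
        rw [h]; exact hsub.subset hz
      obtain ⟨w, hw, hwz⟩ := mem_slist.1 hz2
      refine ⟨w, ?_, hwz⟩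
      rw [Finset.mem_erase]
      refine ⟨?_, hw⟩
      rintro rfl
      rw [hwz] at hyx
      rw [hyx] at hz
      exact hxn hz
  rw [slist, hset]
  exact (List.toFinset_sort (· ≤ ·) hnd2).2 hpw2

/-- The main construction. -/
theorem not_arrow (h θ k H n : ℕ) (hθ : 1 ≤ θ)
    (hC : ∀ s : ℕ, θ ≤ s → (400 : ℝ) * s ^ 2 * (49 / 50) ^ s ≤ (99 / 100) ^ s)
    (hq : ((99 : ℝ) / 100) ^ θ ≤ 1 / 800)
    (h1 : (2 + 9 * h) * (2 ^ h * θ) + 9 * H * θ < k - 1)
    (h2 : (5 * ((k - 1 : ℕ) : ℝ) + 4) * (49 / 50) ^ (2 ^ h * θ) ≤ 1 / 400)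
    (hn : n ≤ twr (H + 1)) : ¬ Arrow k n := by
  classical
  obtain ⟨A, hA⟩ := exists_forest_colouring h θ (k - 1) H hθ hC hq h1 h2
  intro harrow
  obtain ⟨T, hT, i, hi⟩ := harrow (fun S => decide (∃ f ∈ A, Sh (dl (slist S)) f))
  have hlen : (slist T).length = k + 1 := by rw [length_slist, hT]
  have hch := slist_chain T
  obtain ⟨x0, l0, hl0⟩ : ∃ x0 l0, slist T = x0 :: l0 := by
    cases hs : slist T with
    | nil => rw [hs] at hlen; simp at hlen
    | cons x l => exact ⟨x, l, rfl⟩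
  have hdl : (dl (slist T)).length = k := by
    rw [hl0] at hlen ⊢
    rw [length_dl]
    simpa using hlen
  have hne : dl (slist T) ≠ [] := by
    intro h0
    rw [h0] at hdl
    simp only [List.length_nil] at hdl
    omega
  obtain ⟨τ, hτ⟩ := Sh.exists _ (dl (slist T)) rfl hne (dl_chain _ hch)
  have hsize := hτ.size
  rw [hdl] at hsize
  have hht : F.ht τ ≤ H := by
    apply hτ.ht
    apply dl_lt _ (chain_ne hch)
    intro x hx
    obtain ⟨y, _, rfl⟩ := mem_slist.1 hx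
    exact lt_of_lt_of_le y.2 hn
  obtain ⟨⟨O1, hO1, hO1'⟩, ⟨O2, hO2, hO2'⟩⟩ := hA τ (by omega) hτ.alt hht
  have key : ∀ O ∈ F.spots τ, ∃ S : Finset (Fin n), S ⊆ T ∧ S.card = k ∧
      ∃ o ∈ O, Sh (dl (slist S)) o := by
    intro O hO
    obtain ⟨l1, x, l2, o, h3, h4, h5⟩ := realize hO (slist T) hch hτ
    obtain ⟨S, h6, h7, h8⟩ := slist_erase h3
    refine ⟨S, h6, by omega, o, h4, ?_⟩
    rw [h8]; exact h5
  cases i with
  | true =>
    obtain ⟨S, h3, h4, o, h5, h6⟩ := key O2 hO2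
    have h7 := hi S h3 h4
    simp only [decide_eq_true_eq] at h7
    obtain ⟨f, h8, h9⟩ := h7
    have h10 := h9.unique h6
    rw [h10] at h8
    exact hO2' o h5 h8
  | false =>
    obtain ⟨S, h3, h4, o, h5, h6⟩ := key O1 hO1
    have h7 := hi S h3 h4
    simp only [decide_eq_false_iff_not] at h7
    exact h7 ⟨o, hO1' o h5, h6⟩

theorem exists_theta : ∃ θ : ℕ, 1 ≤ θ ∧
    (∀ s : ℕ, θ ≤ s → (400 : ℝ) * s ^ 2 * (49 / 50) ^ s ≤ (99 / 100) ^ s) ∧
    ((99 : ℝ) / 100) ^ θ ≤ 1 / 800 := by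
  have h1 : Filter.Tendsto (fun n : ℕ => (n : ℝ) ^ 2 * (98 / 99 : ℝ) ^ n) Filter.atTop
      (nhds 0) :=
    tendsto_pow_const_mul_const_pow_of_abs_lt_one 2 (by rw [abs_lt]; constructor <;> norm_num)
  have h2 : ∀ᶠ n : ℕ in Filter.atTop, (n : ℝ) ^ 2 * (98 / 99 : ℝ) ^ n < 1 / 400 :=
    h1.eventually (gt_mem_nhds (by norm_num))
  have h3 : Filter.Tendsto (fun n : ℕ => ((99 : ℝ) / 100) ^ n) Filter.atTop (nhds 0) :=
    tendsto_pow_atTop_nhds_zero_of_lt_one (by norm_num) (by norm_num)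
  have h4 : ∀ᶠ n : ℕ in Filter.atTop, ((99 : ℝ) / 100) ^ n < 1 / 800 :=
    h3.eventually (gt_mem_nhds (by norm_num))
  obtain ⟨N1, hN1⟩ := Filter.eventually_atTop.1 h2
  obtain ⟨N2, hN2⟩ := Filter.eventually_atTop.1 h4
  refine ⟨max 1 (max N1 N2), le_max_left _ _, ?_, ?_⟩
  · intro s hs
    have h5 := hN1 s (by omega)
    have h6 : ((49 : ℝ) / 50) ^ s = (98 / 99) ^ s * (99 / 100) ^ s := by
      rw [← mul_pow]; norm_num
    rw [h6]
    have h7 : (0 : ℝ) < (99 / 100) ^ s := by positivity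
    calc (400 : ℝ) * s ^ 2 * ((98 / 99) ^ s * (99 / 100) ^ s)
        = 400 * ((s : ℝ) ^ 2 * (98 / 99) ^ s) * (99 / 100) ^ s := by ring
      _ ≤ 400 * (1 / 400) * (99 / 100) ^ s := by
          apply mul_le_mul_of_nonneg_right _ h7.le
          linarith
      _ = (99 / 100) ^ s := by ring
  · exact (hN2 _ (by omega)).le

theorem twr_mono {i j : ℕ} (h : i ≤ j) : twr i ≤ twr j := by
  induction h with
  | refl => exact le_rfl
  | step _ ih =>
    refine ih.trans ?_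
    rw [twr]
    exact Nat.lt_two_pow_self.le

theorem twr_lt_succ (i : ℕ) : twr i < twr (i + 1) := by
  rw [twr]; exact Nat.lt_two_pow_self

/-- Parameters for a given (large) `h`. -/
theorem exists_h (θ : ℕ) (hθ : 1 ≤ θ) : ∃ h0 : ℕ, ∀ h, h0 ≤ h →
    4 * ((2 + 9 * h) * θ) ≤ 2 ^ h ∧
    (36 : ℝ) * 4 ^ h * (49 / 50) ^ (2 ^ h * θ) ≤ 1 / 400 := by
  have h1 : Filter.Tendsto (fun n : ℕ => (n : ℝ) ^ 1 / (2 : ℝ) ^ n) Filter.atTop (nhds 0) :=
    tendsto_pow_const_div_const_pow_of_one_lt 1 (by norm_num)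
  have hθ' : (0 : ℝ) < θ := by exact_mod_cast hθ
  have h2 : ∀ᶠ n : ℕ in Filter.atTop, (n : ℝ) ^ 1 / (2 : ℝ) ^ n < 1 / (44 * θ) :=
    h1.eventually (gt_mem_nhds (by positivity))
  have h3 : Filter.Tendsto (fun n : ℕ => (n : ℝ) ^ 2 * (49 / 50 : ℝ) ^ n) Filter.atTop
      (nhds 0) :=
    tendsto_pow_const_mul_const_pow_of_abs_lt_one 2 (by rw [abs_lt]; constructor <;> norm_num)
  have h4 : ∀ᶠ n : ℕ in Filter.atTop, (n : ℝ) ^ 2 * (49 / 50 : ℝ) ^ n < 1 / 14400 :=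
    h3.eventually (gt_mem_nhds (by norm_num))
  obtain ⟨N1, hN1⟩ := Filter.eventually_atTop.1 h2
  obtain ⟨N2, hN2⟩ := Filter.eventually_atTop.1 h4
  refine ⟨max 1 (max N1 N2), ?_⟩
  intro h hh
  constructor
  · have h5 := hN1 h (by omega)
    have hp : (0 : ℝ) < 2 ^ h := by positivity
    rw [div_lt_div_iff₀ hp (by positivity)] at h5
    have h6 : (44 * (h : ℝ) * θ) ≤ 2 ^ h := by
      rw [pow_one] at h5
      linarith
    have h7 : 44 * h * θ ≤ 2 ^ h := by exact_mod_cast h6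
    have h8 : 1 ≤ h := by omega
    have h9 : 2 + 9 * h ≤ 11 * h := by omega
    calc 4 * ((2 + 9 * h) * θ) ≤ 4 * ((11 * h) * θ) :=
          Nat.mul_le_mul_left _ (Nat.mul_le_mul_right _ h9)
      _ = 44 * h * θ := by ring
      _ ≤ 2 ^ h := h7
  · have h5 : N2 ≤ 2 ^ h := by
      have : h < 2 ^ h := Nat.lt_two_pow_self
      omega
    have h6 := hN2 (2 ^ h) h5
    have h7 : ((49 : ℝ) / 50) ^ (2 ^ h * θ) ≤ (49 / 50) ^ (2 ^ h) := by
      apply pow_le_pow_of_le_one (by norm_num) (by norm_num)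
      exact Nat.le_mul_of_pos_right _ hθ
    have h8 : (4 : ℝ) ^ h = ((2 ^ h : ℕ) : ℝ) ^ 2 := by
      push_cast
      rw [← pow_mul, mul_comm h 2, pow_mul]
      norm_num
    rw [h8]
    calc (36 : ℝ) * ((2 ^ h : ℕ) : ℝ) ^ 2 * (49 / 50) ^ (2 ^ h * θ)
        ≤ 36 * ((2 ^ h : ℕ) : ℝ) ^ 2 * (49 / 50) ^ (2 ^ h) :=
          mul_le_mul_of_nonneg_left h7 (by positivity)
      _ = 36 * (((2 ^ h : ℕ) : ℝ) ^ 2 * (49 / 50) ^ (2 ^ h)) := by ring
      _ ≤ 36 * (1 / 14400) := by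
          apply mul_le_mul_of_nonneg_left h6.le (by norm_num)
      _ = 1 / 400 := by norm_num

theorem lower_bound : ∃ c : ℝ, 0 < c ∧ ∀ᶠ k : ℕ in Filter.atTop,
    ∀ n, Arrow k n → twr ⌊c * k⌋₊ < n := by
  obtain ⟨θ, hθ, hC, hq⟩ := exists_theta
  obtain ⟨h0, hh0⟩ := exists_h θ hθ
  have hθ' : (0 : ℝ) < θ := by exact_mod_cast hθ
  refine ⟨1 / (20 * θ), by positivity, ?_⟩
  rw [Filter.eventually_atTop]
  refine ⟨max (4 ^ h0) 10, ?_⟩
  intro k hk n harrow
  by_contra hcon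
  push Not at hcon
  set h := Nat.log 4 k with hh
  have hk1 : 10 ≤ k := le_trans (le_max_right _ _) hk
  have hk2 : 4 ^ h0 ≤ k := le_trans (le_max_left _ _) hk
  have hle : 4 ^ h ≤ k := Nat.pow_log_le_self 4 (by omega)
  have hlt : k < 4 ^ (h + 1) := Nat.lt_pow_succ_log_self (by norm_num) k
  have hhh : h0 ≤ h := by
    rw [hh]
    exact Nat.le_log_of_pow_le (by norm_num) hk2
  obtain ⟨a1, a2⟩ := hh0 h hhh
  set H := ⌊1 / (20 * (θ : ℝ)) * k⌋₊ with hH
  have hHle : (H : ℝ) ≤ 1 / (20 * θ) * k := Nat.floor_le (by positivity)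
  have hH2 : 20 * (H * θ) ≤ k := by
    have : (20 : ℝ) * (H * θ) ≤ k := by
      have h5 : (20 : ℝ) * ((1 / (20 * θ) * k) * θ) = k := by
        field_simp
      have h6 : (H : ℝ) * θ ≤ (1 / (20 * θ) * k) * θ := mul_le_mul_of_nonneg_right hHle hθ'.le
      linarith
    exact_mod_cast this
  have hb1 : 4 * ((2 + 9 * h) * (2 ^ h * θ)) ≤ k := by
    calc 4 * ((2 + 9 * h) * (2 ^ h * θ)) = (4 * ((2 + 9 * h) * θ)) * 2 ^ h := by ring
      _ ≤ 2 ^ h * 2 ^ h := Nat.mul_le_mul_right _ a1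
      _ = 4 ^ h := by rw [← mul_pow]; norm_num
      _ ≤ k := hle
  have hb2 : (2 + 9 * h) * (2 ^ h * θ) + 9 * H * θ < k - 1 := by
    have e : 9 * H * θ = 9 * (H * θ) := by ring
    rw [e]
    omega
  have hb3 : (5 * ((k - 1 : ℕ) : ℝ) + 4) * (49 / 50) ^ (2 ^ h * θ) ≤ 1 / 400 := by
    have h5 : (5 * ((k - 1 : ℕ) : ℝ) + 4) ≤ 36 * 4 ^ h := by
      have h6 : 5 * (k - 1) + 4 ≤ 36 * 4 ^ h := by
        rw [pow_succ] at hlt
        omega
      exact_mod_cast h6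
    exact (mul_le_mul_of_nonneg_right h5 (by positivity)).trans a2
  have hn : n ≤ twr (H + 1) := hcon.trans (twr_lt_succ H).le
  exact not_arrow h θ k H n hθ hC hq hb2 hb3 hn harrow

end RamseyTower
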