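import Mathlib

/-!
# Plane forests in first-child / next-sibling form

`F.cons d c n` is a list of children: the first child has label `d` and its own list of
children is `c`; the remaining siblings are `n`.  A node of the tree is identified with its list
of children; a leaf is `F.nil`.
-/

namespace RamseyTower

inductive F : Type
  | nil : F
  | cons (d : Bool) (c n : F) : F
deriving DecidableEq

namespace F

/-- Height: a leaf has height `0`. -/
def ht : F → ℕ
  | nil => 0
  | cons _ c n => max (ht c + 1) (ht n)

/-- Number of proper descendants. -/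
def size : F → ℕ
  | nil => 0
  | cons _ c n => size c + size n + 1

/-- Number of children. -/
def len : F → ℕ
  | nil => 0
  | cons _ _ n => len n + 1

/-- Label of the first child. -/
def dir : F → Option Bool
  | nil => none
  | cons d _ _ => some d

/-- The labels of consecutive children alternate, at all nodes. -/
def Alt : F → Prop
  | nil => True
  | cons d c n => Alt c ∧ Alt n ∧ dir n ≠ some d

section general

variable {T : Type} [AddCommMonoid T] (A : (F → F) → T →+ T)

/-- Sum of `g` over the children, transported to the whole forest. -/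
def ch (g : F → T) : F → T
  | nil => 0
  | cons d c n => A (fun x => cons d x n) (g c) + A (cons d c) (ch g n)

/-- Sum of `g` over all proper descendants. -/
def allS (g : F → T) : F → T
  | nil => 0
  | cons d c n => A (fun x => cons d x n) (g c + allS g c) + A (cons d c) (allS g n)

/-- Sum of `g` over all nodes. -/
def all (g : F → T) (f : F) : T := g f + allS A g f

/-- Sum of `g` over all nodes at depth exactly `a`. -/
def dep (g : F → T) : ℕ → F → T
  | 0 => g
  | a + 1 => ch A (dep g a)

/-- Sum over all nodes `v` of height at most `b` of the sum of `g` at depth `a` below `v`. -/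
def Tot (a b : ℕ) (g : F → T) : F → T :=
  all A (fun v => if ht v ≤ b then dep A g a v else 0)

theorem ch_nil (g : F → T) : ch A g nil = 0 := rfl
theorem ch_cons (g : F → T) (d : Bool) (c n : F) :
    ch A g (cons d c n) = A (fun x => cons d x n) (g c) + A (cons d c) (ch A g n) := rfl
theorem allS_nil (g : F → T) : allS A g nil = 0 := rfl
theorem allS_cons (g : F → T) (d : Bool) (c n : F) :
    allS A g (cons d c n) =
      A (fun x => cons d x n) (all A g c) + A (cons d c) (allS A g n) := rfl

theorem allS_eq_ch (g : F → T) (f : F) : allS A g f = ch A (all A g) f := by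
  induction f with
  | nil => rfl
  | cons d c n _ ihn => rw [allS_cons, ch_cons, ihn]

theorem all_ch (g : F → T) (f : F) : all A (ch A g) f = allS A g f := by
  induction f with
  | nil => simp [all, ch, allS]
  | cons d c n ihc ihn =>
    rw [all, ch_cons, allS_cons, allS_cons]
    have : A (fun x => cons d x n) (g c) + A (cons d c) (ch A g n) +
        (A (fun x => cons d x n) (all A (ch A g) c) + A (cons d c) (allS A (ch A g) n)) =
        A (fun x => cons d x n) (g c + all A (ch A g) c) +
          A (cons d c) (ch A g n + allS A (ch A g) n) := by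
      rw [map_add, map_add]; abel
    rw [this, ihc]
    rw [show ch A g n + allS A (ch A g) n = all A (ch A g) n from rfl, ihn]
    rfl

theorem ch_congr_ht (g : F → T) (b : ℕ) (f : F) (hf : ht f ≤ b) :
    ch A g f = ch A (fun v => if ht v ≤ b then g v else 0) f := by
  induction f with
  | nil => rfl
  | cons d c n _ ihn =>
    simp only [ht, max_le_iff] at hf
    rw [ch_cons, ch_cons, ihn hf.2]
    rw [if_pos (by omega)]

theorem all_add (g h : F → T) (f : F) :
    all A (fun v => g v + h v) f = all A g f + all A h f := by
  have : ∀ f, allS A (fun v => g v + h v) f = allS A g f + allS A h f := by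
    intro f
    induction f with
    | nil => simp [allS]
    | cons d c n ihc ihn =>
      simp only [allS, ihc, ihn, map_add]; abel
  rw [all, this, all, all]; abel

theorem ch_add (g h : F → T) (f : F) :
    ch A (fun v => g v + h v) f = ch A g f + ch A h f := by
  induction f with
  | nil => simp [ch]
  | cons d c n ihc ihn =>
    simp only [ch, ihn, map_add]; abel

section order

variable [PartialOrder T] [CanonicallyOrderedAdd T]

include A in
omit A in
theorem A_mono {x y : T} (φ : F → F) (h : x ≤ y) (A : (F → F) → T →+ T) : A φ x ≤ A φ y := by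
  obtain ⟨z, rfl⟩ := exists_add_of_le h
  rw [map_add]; exact le_self_add

theorem addmono {a b c d : T} (h1 : a ≤ b) (h2 : c ≤ d) : a + c ≤ b + d := by
  obtain ⟨x, rfl⟩ := exists_add_of_le h1
  obtain ⟨y, rfl⟩ := exists_add_of_le h2
  rw [show a + x + (c + y) = a + c + (x + y) by abel]
  exact le_self_add

theorem ch_mono {g h : F → T} (H : ∀ v, Alt v → g v ≤ h v) (f : F) (hf : Alt f) :
    ch A g f ≤ ch A h f := by
  induction f with
  | nil => exact le_rfl
  | cons d c n _ ihn =>
    rw [ch_cons, ch_cons]
    exact addmono (A_mono _ (H c hf.1) A) (A_mono _ (ihn hf.2.1) A)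

theorem all_mono {g h : F → T} (H : ∀ v, Alt v → g v ≤ h v) (f : F) (hf : Alt f) :
    all A g f ≤ all A h f := by
  have : ∀ f, Alt f → allS A g f ≤ allS A h f := by
    intro f hf
    induction f with
    | nil => exact le_rfl
    | cons d c n ihc ihn =>
      simp only [allS]
      exact addmono (A_mono _ (addmono (H c hf.1) (ihc hf.1)) A) (A_mono _ (ihn hf.2.1) A)
  exact addmono (H f hf) (this f hf)

theorem ch_mono' {g h : F → T} (H : ∀ v, g v ≤ h v) (f : F) :
    ch A g f ≤ ch A h f := by
  induction f with
  | nil => exact le_rfl
  | cons d c n _ ihn =>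
    rw [ch_cons, ch_cons]
    exact addmono (A_mono _ (H c) A) (A_mono _ (ihn) A)

theorem all_mono' {g h : F → T} (H : ∀ v, g v ≤ h v) (f : F) :
    all A g f ≤ all A h f := by
  have : ∀ f, allS A g f ≤ allS A h f := by
    intro f
    induction f with
    | nil => exact le_rfl
    | cons d c n ihc ihn =>
      simp only [allS]
      exact addmono (A_mono _ (addmono (H c) (ihc)) A) (A_mono _ (ihn) A)
  exact addmono (H f) (this f)

theorem dep_mono {g h : F → T} (H : ∀ v, Alt v → g v ≤ h v) (a : ℕ) :
    ∀ (f : F), Alt f → dep A g a f ≤ dep A h a f := by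
  induction a with
  | zero => exact H
  | succ a ih => intro f hf; exact ch_mono A ih f hf

theorem Tot_mono {g h : F → T} (H : ∀ v, Alt v → g v ≤ h v) (a b : ℕ) (f : F) (hf : Alt f) :
    Tot A a b g f ≤ Tot A a b h f := by
  refine all_mono A ?_ f hf
  intro v hv
  split_ifs
  · exact dep_mono A H a v hv
  · exact le_rfl

theorem Tot_succ_le (g : F → T) (a b : ℕ) (f : F) : Tot A (a + 1) b g f ≤ Tot A a b g f := by
  have h1 : Tot A (a + 1) b g f ≤
      all A (ch A (fun v => if ht v ≤ b then dep A g a v else 0)) f := by
    refine all_mono' A ?_ f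
    intro v
    split_ifs with h
    · rw [dep, ch_congr_ht A _ b v h]
    · exact zero_le
  refine h1.trans ?_
  rw [all_ch]
  exact le_add_self

theorem Tot_anti (g : F → T) {a a' b : ℕ} (h : a ≤ a') (f : F) :
    Tot A a' b g f ≤ Tot A a b g f := by
  induction h with
  | refl => exact le_rfl
  | step _ ih => exact (Tot_succ_le A g _ b f).trans ih

theorem Tot_le_all (g : F → T) (a b : ℕ) (f : F) : Tot A a b g f ≤ all A g f := by
  refine (Tot_anti A g (Nat.zero_le a) f).trans ?_
  refine all_mono' A ?_ f
  intro v
  split_ifs
  · exact le_rfl
  · exact zero_le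

end order

end general

section hom

variable {T T' : Type} [AddCommMonoid T] [AddCommMonoid T'] (A : (F → F) → T →+ T)
  (A' : (F → F) → T' →+ T') (h : T →+ T') (hA : ∀ φ x, h (A φ x) = A' φ (h x))

include hA

theorem hom_ch (g : F → T) (f : F) : h (ch A g f) = ch A' (fun v => h (g v)) f := by
  induction f with
  | nil => simp [ch]
  | cons d c n _ ihn => simp only [ch, map_add, hA, ihn]

theorem hom_allS (g : F → T) (f : F) : h (allS A g f) = allS A' (fun v => h (g v)) f := by
  induction f with
  | nil => simp [allS]
  | cons d c n ihc ihn => simp only [allS, map_add, hA, ihn, ihc]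

theorem hom_all (g : F → T) (f : F) : h (all A g f) = all A' (fun v => h (g v)) f := by
  rw [all, map_add, hom_allS A A' h hA]; rfl

theorem hom_dep (g : F → T) (a : ℕ) : ∀ (f : F),
    h (dep A g a f) = dep A' (fun v => h (g v)) a f := by
  induction a with
  | zero => intro f; rfl
  | succ a ih =>
    intro f
    simp only [dep]
    rw [hom_ch A A' h hA]
    congr 1
    funext v; exact ih v

theorem hom_Tot (g : F → T) (a b : ℕ) (f : F) :
    h (Tot A a b g f) = Tot A' a b (fun v => h (g v)) f := by
  rw [Tot, hom_all A A' h hA, Tot]
  congr 1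
  funext v
  simp only [apply_ite h, map_zero]
  rw [hom_dep A A' h hA]

end hom

/-- The action used for plain numbers. -/
def AN : (F → F) → ℕ →+ ℕ := fun _ => AddMonoidHom.id ℕ

/-- The action used for multisets of forests. -/
def AM : (F → F) → Multiset F →+ Multiset F := fun φ => Multiset.mapAddMonoidHom φ

/-- The action used for multisets of classes (a class is a multiset of forests). -/
def AC : (F → F) → Multiset (Multiset F) →+ Multiset (Multiset F) :=
  fun φ => Multiset.mapAddMonoidHom (Multiset.map φ)

@[simp] theorem AN_apply (φ : F → F) (x : ℕ) : AN φ x = x := rfl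
@[simp] theorem AM_apply (φ : F → F) (x : Multiset F) : AM φ x = x.map φ := rfl
@[simp] theorem AC_apply (φ : F → F) (x : Multiset (Multiset F)) :
    AC φ x = x.map (Multiset.map φ) := rfl

end F

end RamseyTower
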