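import Pool.Agent.W_MP_3aefc9_co.Defs
import Pool.Agent.W_MP_3aefc9_co.Forest

/-!
# Difference sequences and their shapes
-/

namespace RamseyTower

theorem exists_div_eq (x y : ℕ) : ∃ i, x / 2 ^ i = y / 2 ^ i := by
  refine ⟨x + y, ?_⟩
  have h1 : x < 2 ^ (x + y) :=
    lt_of_lt_of_le (Nat.lt_two_pow_self) (Nat.pow_le_pow_right (by norm_num) (by omega))
  have h2 : y < 2 ^ (x + y) :=
    lt_of_lt_of_le (Nat.lt_two_pow_self) (Nat.pow_le_pow_right (by norm_num) (by omega))
  rw [Nat.div_eq_of_lt h1, Nat.div_eq_of_lt h2]

/-- The least `i` for which `x` and `y` agree after division by `2 ^ i`. -/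
def dd (x y : ℕ) : ℕ := Nat.find (exists_div_eq x y)

theorem dd_spec (x y : ℕ) : x / 2 ^ (dd x y) = y / 2 ^ (dd x y) :=
  Nat.find_spec (exists_div_eq x y)

theorem div_eq_of_le {x y i j : ℕ} (hij : i ≤ j) (h : x / 2 ^ i = y / 2 ^ i) :
    x / 2 ^ j = y / 2 ^ j := by
  obtain ⟨k, rfl⟩ := Nat.exists_eq_add_of_le hij
  rw [pow_add, ← Nat.div_div_eq_div_mul, ← Nat.div_div_eq_div_mul, h]

theorem dd_le_iff {x y i : ℕ} : dd x y ≤ i ↔ x / 2 ^ i = y / 2 ^ i := by
  constructor
  · intro h
    exact div_eq_of_le h (dd_spec x y)
  · intro h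
    exact Nat.find_min' _ h

theorem dd_pos {x y : ℕ} (h : x ≠ y) : 0 < dd x y := by
  by_contra h0
  have : dd x y ≤ 0 := by omega
  rw [dd_le_iff] at this
  simp at this
  exact h this

theorem dd_comm (x y : ℕ) : dd x y = dd y x := by
  apply le_antisymm
  · rw [dd_le_iff]; exact (dd_spec y x).symm
  · rw [dd_le_iff]; exact (dd_spec x y).symm

theorem dd_max {x y z : ℕ} (h1 : x ≤ y) (h2 : y ≤ z) : dd x z = max (dd x y) (dd y z) := by
  have key : ∀ i, dd x z ≤ i ↔ max (dd x y) (dd y z) ≤ i := by
    intro i
    rw [max_le_iff, dd_le_iff, dd_le_iff, dd_le_iff]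
    have h3 : x / 2 ^ i ≤ y / 2 ^ i := Nat.div_le_div_right h1
    have h4 : y / 2 ^ i ≤ z / 2 ^ i := Nat.div_le_div_right h2
    constructor
    · intro h; constructor <;> omega
    · intro h; omega
  exact le_antisymm ((key _).2 le_rfl) ((key _).1 le_rfl)

theorem dd_ne {x y z : ℕ} (h1 : x < y) (h2 : y < z) : dd x y ≠ dd y z := by
  intro h
  have hpos := dd_pos (ne_of_lt h1)
  obtain ⟨i, hi⟩ : ∃ i, dd x y = i + 1 := ⟨dd x y - 1, by omega⟩
  have e1 : ¬ (x / 2 ^ i = y / 2 ^ i) := by
    rw [← dd_le_iff]; omega
  have e2 : ¬ (y / 2 ^ i = z / 2 ^ i) := by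
    rw [← dd_le_iff]; omega
  have e3 : x / 2 ^ (i + 1) = y / 2 ^ (i + 1) := by
    rw [← dd_le_iff]; omega
  have e4 : y / 2 ^ (i + 1) = z / 2 ^ (i + 1) := by
    rw [← dd_le_iff]; omega
  have h3 : x / 2 ^ i ≤ y / 2 ^ i := Nat.div_le_div_right h1.le
  have h4 : y / 2 ^ i ≤ z / 2 ^ i := Nat.div_le_div_right h2.le
  rw [pow_succ, ← Nat.div_div_eq_div_mul, ← Nat.div_div_eq_div_mul] at e3 e4
  omega

/-- Position of the highest differing binary digit. -/
def dlt (x y : ℕ) : ℕ := dd x y - 1

theorem dlt_comm (x y : ℕ) : dlt x y = dlt y x := by rw [dlt, dd_comm, dlt]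

theorem dlt_lt {x y m : ℕ} (hxy : x ≠ y) (hx : x < 2 ^ m) (hy : y < 2 ^ m) : dlt x y < m := by
  have h1 : dd x y ≤ m := by
    rw [dd_le_iff, Nat.div_eq_of_lt hx, Nat.div_eq_of_lt hy]
  have := dd_pos hxy
  unfold dlt; omega

/-- `up d x y` is `x < y` or `y < x` according to the direction `d`. -/
def up (d : Bool) (x y : ℕ) : Prop := if d = true then x < y else y < x

theorem up_true (x y : ℕ) : up true x y ↔ x < y := by simp [up]
theorem up_false (x y : ℕ) : up false x y ↔ y < x := by simp [up]

theorem up_trans {d : Bool} {x y z : ℕ} (h1 : up d x y) (h2 : up d y z) : up d x z := by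
  cases d
  · rw [up_false] at *; omega
  · rw [up_true] at *; omega

theorem up_ne {d : Bool} {x y : ℕ} (h : up d x y) : x ≠ y := by
  cases d
  · rw [up_false] at *; omega
  · rw [up_true] at *; omega

theorem up_unique {d d' : Bool} {x y : ℕ} (h : up d x y) (h' : up d' x y) : d = d' := by
  cases d <;> cases d' <;> simp only [up_true, up_false] at * <;> omega

theorem up_total {x y : ℕ} (h : x ≠ y) : ∃ d, up d x y := by
  rcases lt_or_gt_of_ne h with h | h
  · exact ⟨true, (up_true _ _).2 h⟩
  · exact ⟨false, (up_false _ _).2 h⟩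

theorem dlt_max {d : Bool} {x y z : ℕ} (h1 : up d x y) (h2 : up d y z) :
    dlt x z = max (dlt x y) (dlt y z) := by
  unfold dlt
  cases d
  · rw [up_false] at *
    have := dd_max h2.le h1.le
    rw [dd_comm z x, dd_comm z y, dd_comm y x] at this
    omega
  · rw [up_true] at *
    have := dd_max h1.le h2.le
    omega

theorem dlt_ne {d : Bool} {x y z : ℕ} (h1 : up d x y) (h2 : up d y z) :
    dlt x y ≠ dlt y z := by
  unfold dlt
  have p1 := dd_pos (up_ne h1)
  have p2 := dd_pos (up_ne h2)
  cases d
  · rw [up_false] at *
    have := dd_ne h2 h1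
    rw [dd_comm z y, dd_comm y x] at this
    omega
  · rw [up_true] at *
    have := dd_ne h1 h2
    omega

/-- The list of consecutive differences. -/
def dl : List ℕ → List ℕ
  | [] => []
  | [_] => []
  | x :: y :: l => dlt x y :: dl (y :: l)

theorem dl_cons_cons (x y : ℕ) (l : List ℕ) : dl (x :: y :: l) = dlt x y :: dl (y :: l) := rfl

theorem length_dl : ∀ (x : ℕ) (l : List ℕ), (dl (x :: l)).length = l.length
  | _, [] => rfl
  | x, y :: l => by rw [dl_cons_cons, List.length_cons, length_dl y l, List.length_cons]

theorem dl_lt {m : ℕ} : ∀ (l : List ℕ), l.IsChain (· ≠ ·) → (∀ x ∈ l, x < 2 ^ m) →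
    ∀ x ∈ dl l, x < m
  | [], _, _ => by intro x hx; simp [dl] at hx
  | [_], _, _ => by intro x hx; simp [dl] at hx
  | a :: b :: l, hc, h => by
    intro x hx
    rw [dl_cons_cons, List.mem_cons] at hx
    rw [List.isChain_cons_cons] at hc
    rcases hx with rfl | hx
    · exact dlt_lt hc.1 (h a (by simp)) (h b (by simp))
    · exact dl_lt (b :: l) hc.2 (fun x hx => h x (List.mem_cons_of_mem _ hx)) x hx

theorem chain_ne {d : Bool} {l : List ℕ} (h : l.IsChain (up d)) : l.IsChain (· ≠ ·) :=
  h.imp (fun _ _ => up_ne)

theorem dl_chain {d : Bool} : ∀ (l : List ℕ), l.IsChain (up d) → (dl l).IsChain (· ≠ ·)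
  | [], _ => by simp [dl]
  | [_], _ => by simp [dl]
  | [a, b], _ => by simp [dl]
  | a :: b :: c :: l, h => by
    rw [List.isChain_cons_cons, List.isChain_cons_cons] at h
    rw [dl_cons_cons, dl_cons_cons, List.isChain_cons_cons]
    refine ⟨dlt_ne h.1 h.2.1, ?_⟩
    have := dl_chain (b :: c :: l) (by rw [List.isChain_cons_cons]; exact h.2)
    rwa [dl_cons_cons] at this

/-- The shape of a list: `L ++ [y]` is the first maximal monotone run. -/
inductive Sh : List ℕ → F → Prop
  | one (x : ℕ) : Sh [x] F.nil
  | run (d : Bool) (L : List ℕ) (y : ℕ) (r : List ℕ) (c n : F) (hL : L ≠ [])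
      (hm : (L ++ [y]).IsChain (up d)) (hc : Sh (dl (L ++ [y])) c) (hn : Sh (y :: r) n)
      (hd : F.dir n ≠ some d) : Sh (L ++ y :: r) (F.cons d c n)

theorem Sh.ne_nil {b : List ℕ} {f : F} (h : Sh b f) : b ≠ [] := by
  cases h <;> simp

theorem Sh.alt {b : List ℕ} {f : F} (h : Sh b f) : F.Alt f := by
  induction h with
  | one x => trivial
  | run d L y r c n hL hm hc hn hd ihc ihn => exact ⟨ihc, ihn, hd⟩

theorem Sh.size {b : List ℕ} {f : F} (h : Sh b f) : F.size f + 1 = b.length := by
  induction h with
  | one x => rfl
  | run d L y r c n hL hm hc hn hd ihc ihn =>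
    obtain ⟨x, L', rfl⟩ := List.exists_cons_of_ne_nil hL
    rw [List.cons_append, length_dl] at ihc
    simp only [F.size, List.length_append, List.length_cons, List.length_nil] at *
    omega

theorem Sh.ht {b : List ℕ} {f : F} (h : Sh b f) :
    ∀ j, (∀ x ∈ b, x < twr j) → F.ht f ≤ j := by
  induction h with
  | one x => intro j _; exact Nat.zero_le _
  | run d L y r c n hL hm hc hn hd ihc ihn =>
    intro j hj
    have h1 : ∀ x ∈ L ++ [y], x < twr j := by
      intro x hx
      rw [List.mem_append, List.mem_singleton] at hx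
      apply hj
      rw [List.mem_append, List.mem_cons]
      rcases hx with hx | hx
      · left; exact hx
      · right; left; exact hx
    have h2 : F.ht n ≤ j := ihn j (by
      intro x hx
      apply hj
      rw [List.mem_append]
      right; exact hx)
    obtain ⟨x, L', rfl⟩ := List.exists_cons_of_ne_nil hL
    cases j with
    | zero =>
      exfalso
      have hx := h1 x (by simp)
      have hne : ∃ z l, (x :: L') ++ [y] = x :: z :: l := by
        cases L' with
        | nil => exact ⟨y, [], rfl⟩
        | cons z l => exact ⟨z, l ++ [y], rfl⟩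
      obtain ⟨z, l, hzl⟩ := hne
      have hz := h1 z (by rw [hzl]; simp)
      rw [hzl, List.isChain_cons_cons] at hm
      have := up_ne hm.1
      simp only [twr] at hx hz
      omega
    | succ j =>
      have h3 : F.ht c ≤ j := ihc j (dl_lt _ (chain_ne hm) (by simpa [twr] using h1))
      simp only [F.ht]
      omega

theorem Sh.first {b : List ℕ} {f : F} (h : Sh b f) {d : Bool} {x y : ℕ} {r : List ℕ}
    (hb : b = x :: y :: r) (hup : up d x y) : F.dir f = some d := by
  cases h with
  | one x => simp at hb
  | run d' L y' r' c n hL hm hc hn hd =>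
    obtain ⟨x', L', rfl⟩ := List.exists_cons_of_ne_nil hL
    have : up d' x y := by
      cases L' with
      | nil =>
        simp only [List.cons_append, List.nil_append, List.cons.injEq] at hb
        obtain ⟨rfl, rfl, rfl⟩ := hb
        simp only [List.cons_append, List.nil_append, List.isChain_cons_cons] at hm
        exact hm.1
      | cons z l =>
        simp only [List.cons_append, List.cons.injEq] at hb
        obtain ⟨rfl, rfl, hb⟩ := hb
        simp only [List.cons_append, List.isChain_cons_cons] at hm
        exact hm.1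
    rw [up_unique hup this]
    rfl

theorem Sh.dir_up {b : List ℕ} {f : F} (h : Sh b f) {d : Bool} (hd : F.dir f = some d) :
    ∃ x y r, b = x :: y :: r ∧ up d x y := by
  cases h with
  | one x => simp [F.dir] at hd
  | run d' L y' r' c n hL hm hc hn hd' =>
    simp only [F.dir, Option.some.injEq] at hd
    subst hd
    obtain ⟨x', L', rfl⟩ := List.exists_cons_of_ne_nil hL
    cases L' with
    | nil =>
      refine ⟨x', y', r', rfl, ?_⟩
      simp only [List.cons_append, List.nil_append, List.isChain_cons_cons] at hm
      exact hm.1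
    | cons z l =>
      refine ⟨x', z, l ++ y' :: r', rfl, ?_⟩
      simp only [List.cons_append, List.isChain_cons_cons] at hm
      exact hm.1

theorem run_unique_aux {d : Bool} {L s r : List ℕ} {y z : ℕ} {n : F}
    (hn : Sh (y :: (s ++ z :: r)) n) (hd : F.dir n ≠ some d)
    (hm : (L ++ (y :: s ++ [z])).IsChain (up d)) : False := by
  have h1 : (y :: s ++ [z]).IsChain (up d) := (List.isChain_append.1 hm).2.1
  cases s with
  | nil =>
    simp only [List.cons_append, List.nil_append, List.isChain_cons_cons] at h1
    exact hd (hn.first rfl h1.1)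
  | cons w s =>
    simp only [List.cons_append, List.isChain_cons_cons] at h1
    exact hd (hn.first rfl h1.1)

theorem Sh.unique {b : List ℕ} {f : F} (h : Sh b f) : ∀ {f' : F}, Sh b f' → f = f' := by
  induction h with
  | one x =>
    intro f' h'
    generalize hb : [x] = b at h'
    cases h' with
    | one x => rfl
    | run d L y r c n hL hm hc hn hd =>
      exfalso
      have := congrArg List.length hb
      have h2 := List.length_pos_iff.2 hL
      simp only [List.length_append, List.length_cons, List.length_nil] at this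
      omega
  | run d L y r c n hL hm hc hn hd ihc ihn =>
    intro f' h'
    have hdir := Sh.run d L y r c n hL hm hc hn hd
    have hdir' := h'
    generalize hb : L ++ y :: r = b at h' hdir hdir'
    cases h' with
    | one x =>
      exfalso
      have := congrArg List.length hb
      have h2 := List.length_pos_iff.2 hL
      simp only [List.length_append, List.length_cons, List.length_nil] at this
      omega
    | run d' L' y' r' c' n' hL' hm' hc' hn' hd' =>
      obtain ⟨x, z, l, hxz, hup⟩ := hdir.dir_up (d := d) rfl
      have hdd := hdir'.first hxz hup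
      simp only [F.dir, Option.some.injEq] at hdd
      subst hdd
      rw [List.append_eq_append_iff] at hb
      rcases hb with ⟨s, h1, h2⟩ | ⟨s, h1, h2⟩
      · cases s with
        | nil =>
          simp only [List.append_nil, List.nil_append, List.cons.injEq] at h1 h2
          obtain ⟨rfl, rfl⟩ := h2
          subst h1
          rw [ihc hc', ihn hn']
        | cons w s =>
          exfalso
          simp only [List.cons_append, List.cons.injEq] at h2
          obtain ⟨rfl, rfl⟩ := h2
          subst h1
          exact run_unique_aux hn hd (by simpa using hm')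
      · cases s with
        | nil =>
          simp only [List.append_nil, List.nil_append, List.cons.injEq] at h1 h2
          obtain ⟨rfl, rfl⟩ := h2
          subst h1
          rw [ihc hc', ihn hn']
        | cons w s =>
          exfalso
          simp only [List.cons_append, List.cons.injEq] at h2
          obtain ⟨rfl, rfl⟩ := h2
          subst h1
          exact run_unique_aux hn' hd' (by simpa using hm)

theorem Sh.exists : ∀ (m : ℕ) (b : List ℕ), b.length = m → b ≠ [] → b.IsChain (· ≠ ·) →
    ∃ f, Sh b f := by
  intro m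
  induction m using Nat.strong_induction_on with
  | _ m ih =>
    intro b hm hb hc
    match b, hm, hb, hc with
    | [x], _, _, _ => exact ⟨F.nil, Sh.one x⟩
    | x :: z :: l, hm, _, hc =>
      rw [List.isChain_cons_cons] at hc
      obtain ⟨d, hd⟩ := up_total hc.1
      obtain ⟨g, hg⟩ := ih (z :: l).length (by simp only [List.length_cons] at *; omega)
        (z :: l) rfl (by simp) hc.2
      by_cases hgd : F.dir g = some d
      · -- the first run is extended
        generalize hb : z :: l = b at hg
        cases hg with
        | one y => simp [F.dir] at hgd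
        | run d' L y r c n hL hm' hc' hn hd' =>
          simp only [F.dir, Option.some.injEq] at hgd
          subst hgd
          obtain ⟨z', L', rfl⟩ := List.exists_cons_of_ne_nil hL
          simp only [List.cons_append, List.cons.injEq] at hb
          obtain ⟨rfl, rfl⟩ := hb
          have hch : (x :: (z :: L') ++ [y]).IsChain (up d') := by
            simp only [List.cons_append] at hm' ⊢
            exact List.isChain_cons_cons.2 ⟨hd, hm'⟩
          obtain ⟨c2, hc2⟩ := ih (dl (x :: (z :: L') ++ [y])).length (by
              rw [List.cons_append, length_dl]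
              simp only [List.length_append, List.length_cons, List.length_nil] at *
              omega) _ rfl (by simp [dl]) (dl_chain _ hch)
          exact ⟨_, Sh.run d' (x :: z :: L') y r c2 n (by simp) hch hc2 hn hd'⟩
      · refine ⟨_, Sh.run d [x] z l F.nil g (by simp) ?_ ?_ hg hgd⟩
        · simp [hd]
        · simp only [List.cons_append, List.nil_append, dl]
          exact Sh.one _

end RamseyTower
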