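import Pool.Agent.W_MP_3aefc9_co.Spots

/-!
# The outcomes of the classes of an alternating forest are distinct
-/

namespace RamseyTower

namespace F

theorem len_allS {f : F} : ∀ {σ : F}, σ ∈ allS AM out0 f → len σ = len f := by
  induction f with
  | nil => intro σ h; simp [allS] at h
  | cons d c n _ ih =>
    intro σ h
    rw [allS_cons, Multiset.mem_add, AM_apply, AM_apply, Multiset.mem_map,
      Multiset.mem_map] at h
    rcases h with ⟨c', _, rfl⟩ | ⟨n', h1, rfl⟩
    · simp [len]
    · simp [len, ih h1]

theorem len_start {f σ : F} (h : σ ∈ (start f).join) : len σ < len f := by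
  rcases mem_start_join h with h | ⟨h1, h2⟩ | ⟨h1, d, h2⟩ | ⟨n, h1, h2 | ⟨d, h2⟩⟩
  · rw [h]; simp [len]
  · subst h1 h2; simp [len]
  · subst h1 h2; simp [len, lf]
  · subst h1 h2; simp [len]
  · subst h1 h2; simp only [len]; omega

theorem len_win {f : F} : ∀ {σ : F}, σ ∈ (win f).join → len σ < len f := by
  induction f with
  | nil => intro σ h; simp [win] at h
  | cons d c n _ ih =>
    intro σ h
    rw [win_cons_join, Multiset.mem_add] at h
    rcases h with h | h
    · obtain ⟨r, h1, ⟨e, h2⟩ | ⟨e, h2⟩⟩ := mem_here_join h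
      · rw [h1]; subst h2; simp only [len]; omega
      · rw [h1]; subst h2; simp only [len]; omega
    · rw [Multiset.mem_map] at h
      obtain ⟨n', h1, rfl⟩ := h
      have := ih h1
      simp only [len]; omega

theorem dir_win {f : F} {σ : F} (h : σ ∈ (win f).join) : dir σ = dir f := by
  cases f with
  | nil => simp [win] at h
  | cons d c n =>
    rw [win_cons_join, Multiset.mem_add] at h
    rcases h with h | h
    · obtain ⟨r, h1, ⟨e, h2⟩ | ⟨e, h2⟩⟩ := mem_here_join h
      · rw [h1]; subst h2; rfl
      · rw [h1]; subst h2; rfl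
    · rw [Multiset.mem_map] at h
      obtain ⟨n', h1, rfl⟩ := h
      rfl

theorem here_false (c n : F) : here (cons false c n) = 0 := by
  rcases here_cases (cons false c n) with h | ⟨r, h, _⟩
  · exact h
  · simp at h

theorem win_false {c n σ : F} (h : σ ∈ (win (cons false c n)).join) :
    ∃ n', n' ∈ (win n).join ∧ σ = cons false c n' := by
  rw [win_cons_join, here_false, Multiset.join_zero, zero_add, Multiset.mem_map] at h
  obtain ⟨n', h1, h2⟩ := h
  exact ⟨n', h1, h2.symm⟩

theorem nodup_start (f : F) : (start f).join.Nodup := by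
  rcases start_cases f with h0 | ⟨n, rfl, h0⟩ | ⟨rfl, h0⟩ | ⟨rfl, h0⟩ | ⟨n, rfl, h0⟩
  · simp [h0]
  · simp [h0]
  · simp [h0]
  · simp [h0, lf]
  · simp [h0, lf]

theorem nodup_here (f : F) : (here f).join.Nodup := by
  rcases here_cases f with h0 | ⟨r, rfl, h0⟩
  · simp [h0]
  · rw [h0]; simp [lf]

theorem cons_inj_next (d : Bool) (c : F) : Function.Injective (cons d c) := by
  intro x y h; simpa using h

theorem cons_inj_child (d : Bool) (n : F) : Function.Injective (fun x => cons d x n) := by
  intro x y h; simpa using h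

theorem nodup_win (f : F) : (win f).join.Nodup := by
  induction f with
  | nil => simp [win]
  | cons d c n _ ih =>
    rw [win_cons_join, Multiset.nodup_add]
    refine ⟨nodup_here _, ih.map (cons_inj_next d c), ?_⟩
    rw [Multiset.disjoint_left]
    intro σ h1 h2
    rw [Multiset.mem_map] at h2
    obtain ⟨n', h2, rfl⟩ := h2
    obtain ⟨r, h3, ⟨e, h4⟩ | ⟨e, h4⟩⟩ := mem_here_join h1
    · simp only [F.cons.injEq] at h3 h4
      rw [h3.2.1] at h4
      simp [lf] at h4
    · simp only [F.cons.injEq] at h3 h4
      rw [h3.2.2] at h2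
      obtain ⟨n'', _, h5⟩ := win_false h2
      rw [h5] at h4
      simp [lf] at h4

theorem disj_start_win (f : F) (hf : Alt f) :
    Disjoint (start f).join (win f).join := by
  rw [Multiset.disjoint_left]
  intro σ h1 h2
  rcases mem_start_join h1 with h | ⟨h3, h4⟩ | ⟨h3, d, h4⟩ | ⟨n, h3, h4 | ⟨d, h4⟩⟩
  · have := dir_win h2
    rw [h] at this
    rw [h] at hf
    exact hf.2.2 this
  · subst h3 h4
    obtain ⟨n', _, h⟩ := win_false h2
    simp at h
  · subst h3 h4
    obtain ⟨n', h, _⟩ := win_false h2
    rw [win_cons_join, win, Multiset.join_zero, Multiset.map_zero, add_zero] at h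
    obtain ⟨r, h3, _⟩ := mem_here_join h
    simp at h3
  · subst h3 h4
    obtain ⟨n', _, h⟩ := win_false h2
    simp at h
  · subst h3 h4
    obtain ⟨n', _, h⟩ := win_false h2
    simp [lf] at h

theorem nodup_out0 (f : F) (hf : Alt f) : (out0 f).Nodup := by
  rw [out0_eq, Multiset.nodup_add]
  exact ⟨nodup_start f, nodup_win f, disj_start_win f hf⟩

theorem nodup_allS (f : F) (hf : Alt f) : (allS AM out0 f).Nodup := by
  induction f with
  | nil => simp [allS]
  | cons d c n ihc ihn =>
    rw [allS_cons, Multiset.nodup_add, AM_apply, AM_apply]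
    refine ⟨?_, (ihn hf.2.1).map (cons_inj_next d c), ?_⟩
    · refine Multiset.Nodup.map (cons_inj_child d n) ?_
      rw [all, Multiset.nodup_add]
      refine ⟨nodup_out0 c hf.1, ihc hf.1, ?_⟩
      rw [Multiset.disjoint_left]
      intro σ h1 h2
      have h3 := len_allS h2
      rw [out0_eq, Multiset.mem_add] at h1
      rcases h1 with h1 | h1
      · have := len_start h1; omega
      · have := len_win h1; omega
    · rw [Multiset.disjoint_left]
      intro σ h1 h2
      rw [Multiset.mem_map] at h1 h2
      obtain ⟨c', h3, rfl⟩ := h1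
      obtain ⟨n', h4, h5⟩ := h2
      simp only [F.cons.injEq] at h5
      obtain ⟨t, ht⟩ := cmp_all h3
      have := ht.sz
      rw [← h5.2.1] at this
      omega

theorem nodup_all (f : F) (hf : Alt f) : (all AM out0 f).Nodup := by
  rw [all, Multiset.nodup_add]
  refine ⟨nodup_out0 f hf, nodup_allS f hf, ?_⟩
  rw [Multiset.disjoint_left]
  intro σ h1 h2
  have h3 := len_allS h2
  rw [out0_eq, Multiset.mem_add] at h1
  rcases h1 with h1 | h1
  · have := len_start h1; omega
  · have := len_win h1; omega

theorem spots_join (f : F) : joinHom (spots f) = all AM out0 f := by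
  rw [spots, hom_all AC AM joinHom joinHom_AC]
  rfl

/-- The classes selected at level `(a, b)`. -/
def sel (a b : ℕ) (f : F) : Multiset (Multiset F) := Tot AC a b spots0 f

theorem sel_le (a b : ℕ) (f : F) : sel a b f ≤ spots f := Tot_le_all AC spots0 a b f

theorem sel_join (a b : ℕ) (f : F) : joinHom (sel a b f) = Tot AM a b out0 f := by
  rw [sel, hom_Tot AC AM joinHom joinHom_AC]
  rfl

theorem joinHom_mono {x y : Multiset (Multiset F)} (h : x ≤ y) : joinHom x ≤ joinHom y := by
  obtain ⟨z, rfl⟩ := exists_add_of_le h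
  rw [map_add]; exact le_self_add

theorem nodup_of_le_spots {f : F} (hf : Alt f) {s : Multiset (Multiset F)} (h : s ≤ spots f) :
    s.join.Nodup := by
  have := joinHom_mono h
  rw [spots_join] at this
  exact Multiset.nodup_of_le this (nodup_all f hf)

theorem card_le_four_start (f : F) : ∀ O ∈ start f, Multiset.card O ≤ 4 := by
  intro O hO
  rcases start_cases f with h0 | ⟨n, rfl, h0⟩ | ⟨rfl, h0⟩ | ⟨rfl, h0⟩ | ⟨n, rfl, h0⟩ <;>
  · rw [h0] at hO
    try simp at hO
    try (subst hO; simp)

theorem card_le_four_here (f : F) : ∀ O ∈ here f, Multiset.card O ≤ 4 := by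
  intro O hO
  rcases here_cases f with h0 | ⟨n, rfl, h0⟩ <;>
  · rw [h0] at hO
    try simp at hO
    try (subst hO; simp)

theorem card_le_four_win (f : F) : ∀ O ∈ win f, Multiset.card O ≤ 4 := by
  induction f with
  | nil => intro O hO; simp [win] at hO
  | cons d c n _ ih =>
    intro O hO
    rw [win, Multiset.mem_add, AC_apply, Multiset.mem_map] at hO
    rcases hO with hO | ⟨O', h1, rfl⟩
    · exact card_le_four_here _ O hO
    · rw [Multiset.card_map]; exact ih O' h1

theorem card_le_four_spots0 (f : F) : ∀ O ∈ spots0 f, Multiset.card O ≤ 4 := by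
  intro O hO
  rw [spots0, Multiset.mem_add] at hO
  rcases hO with hO | hO
  · exact card_le_four_start f O hO
  · exact card_le_four_win f O hO

theorem card_le_four (f : F) : ∀ O ∈ spots f, Multiset.card O ≤ 4 := by
  have key : ∀ f, ∀ O ∈ allS AC spots0 f, Multiset.card O ≤ 4 := by
    intro f
    induction f with
    | nil => intro O hO; simp [allS] at hO
    | cons d c n ihc ih =>
      intro O hO
      rw [allS_cons, Multiset.mem_add, AC_apply, AC_apply, Multiset.mem_map,
        Multiset.mem_map] at hO
      rcases hO with ⟨O', h1, rfl⟩ | ⟨O', h1, rfl⟩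
      · rw [Multiset.card_map]
        rw [all, Multiset.mem_add] at h1
        rcases h1 with h1 | h1
        · exact card_le_four_spots0 c O' h1
        · exact ihc O' h1
      · rw [Multiset.card_map]; exact ih O' h1
  intro O hO
  rw [spots, all, Multiset.mem_add] at hO
  rcases hO with hO | hO
  · exact card_le_four_spots0 f O hO
  · exact key f O hO

end F

end RamseyTower
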