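import Mathlib

/-!
# A counting version of the local lemma
-/

namespace RamseyTower

open Finset

section main

variable {V ι : Type} [DecidableEq V] (E : Finset ι) (S : ι → Finset V)
  (B : ι → Finset (Finset V))

open Classical in
/-- Subsets of `U` that avoid all events supported in `U`. -/
noncomputable def good (U : Finset V) : Finset (Finset V) :=
  U.powerset.filter (fun A => ∀ e ∈ E, S e ⊆ U → A ∩ S e ∉ B e)

theorem mem_good {U A : Finset V} :
    A ∈ good E S B U ↔ A ⊆ U ∧ ∀ e ∈ E, S e ⊆ U → A ∩ S e ∉ B e := by
  classical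
  rw [good, mem_filter, mem_powerset]

variable (w : ι → ℝ) (β : ℝ)

theorem good_step (hβ : 1 ≤ β) (hS : ∀ e ∈ E, (S e).Nonempty) (hw0 : ∀ e ∈ E, 0 ≤ w e)
    (hB : ∀ e ∈ E, ((B e).card : ℝ) ≤ w e * β ^ ((S e).card - 1))
    (hw : ∀ v, ∑ e ∈ E.filter (fun e => v ∈ S e), w e ≤ 2 - β) :
    ∀ (m : ℕ) (U : Finset V), U.card = m → ∀ v, v ∉ U →
      β * ((good E S B U).card : ℝ) ≤ ((good E S B (insert v U)).card : ℝ) := by
  classical
  intro m
  induction m using Nat.strong_induction_on with
  | _ m ih =>
    intro U hU v hv
    -- consequences for subsets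
    have sub : ∀ X : Finset V, X ⊆ U →
        β ^ X.card * ((good E S B (U \ X)).card : ℝ) ≤ ((good E S B U).card : ℝ) := by
      intro X
      induction X using Finset.induction_on with
      | empty => intro _; simp
      | insert x X hx ihX =>
        intro hXU
        rw [insert_subset_iff] at hXU
        have h1 := ihX hXU.2
        have h2 : U \ X = insert x (U \ insert x X) := by
          ext y
          simp only [mem_sdiff, mem_insert, not_or]
          constructor
          · rintro ⟨h3, h4⟩
            by_cases h5 : y = x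
            · left; exact h5
            · right; exact ⟨h3, h5, h4⟩
          · rintro (h3 | ⟨h3, _, h4⟩)
            · subst h3; exact ⟨hXU.1, hx⟩
            · exact ⟨h3, h4⟩
        have h3 : (U \ insert x X).card < m := by
          rw [← hU]
          apply card_lt_card
          rw [ssubset_iff_of_subset sdiff_subset]
          exact ⟨x, hXU.1, by simp⟩
        have h4 := ih _ h3 (U \ insert x X) rfl x (by simp)
        rw [← h2] at h4
        rw [card_insert_of_notMem hx, pow_succ]
        calc β ^ X.card * β * ((good E S B (U \ insert x X)).card : ℝ)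
            = β ^ X.card * (β * ((good E S B (U \ insert x X)).card : ℝ)) := by ring
          _ ≤ β ^ X.card * ((good E S B (U \ X)).card : ℝ) :=
              mul_le_mul_of_nonneg_left h4 (by positivity)
          _ ≤ _ := h1
    set G := good E S B U with hG
    set F' := (insert v U).powerset.filter (fun A => A.erase v ∈ G) with hF'
    have hGU : ∀ A ∈ G, v ∉ A := by
      intro A hA h
      rw [hG, mem_good] at hA
      exact hv (hA.1 h)
    have hF : 2 * G.card ≤ F'.card := by
      have h1 : Disjoint G (G.image (insert v)) := by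
        rw [Finset.disjoint_left]
        intro A hA h2
        rw [mem_image] at h2
        obtain ⟨A', _, rfl⟩ := h2
        exact hGU _ hA (mem_insert_self _ _)
      have h2 : (G.image (insert v)).card = G.card := by
        apply card_image_of_injOn
        intro A hA A' hA' h
        have h3 : (insert v A).erase v = (insert v A').erase v := by rw [h]
        rwa [erase_insert (hGU A hA), erase_insert (hGU A' hA')] at h3
      have h3 : G ∪ G.image (insert v) ⊆ F' := by
        intro A hA
        rw [mem_union, mem_image] at hA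
        rw [hF', mem_filter, mem_powerset]
        rcases hA with hA | ⟨A', hA', rfl⟩
        · have h4 := hA
          rw [hG, mem_good] at h4
          refine ⟨h4.1.trans (subset_insert _ _), ?_⟩
          rwa [erase_eq_of_notMem (hGU A hA)]
        · have h4 := hA'
          rw [hG, mem_good] at h4
          refine ⟨insert_subset_insert _ h4.1, ?_⟩
          rwa [erase_insert (hGU A' hA')]
      have h4 := card_le_card h3
      rw [card_union_of_disjoint h1, h2] at h4
      omega
    set Ev := E.filter (fun e => v ∈ S e ∧ S e ⊆ insert v U) with hEv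
    have hcover : F' ⊆ good E S B (insert v U) ∪
        Ev.biUnion (fun e => F'.filter (fun A => A ∩ S e ∈ B e)) := by
      intro A hA
      rw [mem_union, mem_biUnion]
      by_cases h : ∃ e ∈ Ev, A ∩ S e ∈ B e
      · right
        obtain ⟨e, he, h⟩ := h
        exact ⟨e, he, mem_filter.2 ⟨hA, h⟩⟩
      · left
        rw [hF', mem_filter, mem_powerset] at hA
        rw [mem_good]
        refine ⟨hA.1, ?_⟩
        intro e he hSe hbad
        by_cases hve : v ∈ S e
        · exact h ⟨e, mem_filter.2 ⟨he, hve, hSe⟩, hbad⟩
        · have h1 : S e ⊆ U := by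
            intro x hx
            have := hSe hx
            rw [mem_insert] at this
            rcases this with rfl | h2
            · exact absurd hx hve
            · exact h2
          have h2 : A.erase v ∩ S e = A ∩ S e := by
            ext x
            simp only [mem_inter, mem_erase]
            constructor
            · rintro ⟨⟨_, h3⟩, h4⟩; exact ⟨h3, h4⟩
            · rintro ⟨h3, h4⟩
              refine ⟨⟨?_, h3⟩, h4⟩
              rintro rfl; exact hve h4
          have h3 := hA.2
          rw [hG, mem_good] at h3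
          have := h3.2 e he h1
          rw [h2] at this
          exact this hbad
    have hcard : (F'.card : ℝ) ≤ ((good E S B (insert v U)).card : ℝ) +
        ∑ e ∈ Ev, ((F'.filter (fun A => A ∩ S e ∈ B e)).card : ℝ) := by
      have h1 := card_le_card hcover
      have h2 := card_union_le (good E S B (insert v U))
        (Ev.biUnion (fun e => F'.filter (fun A => A ∩ S e ∈ B e)))
      have h3 := card_biUnion_le (s := Ev) (t := fun e => F'.filter (fun A => A ∩ S e ∈ B e))
      have h4 : F'.card ≤ (good E S B (insert v U)).card +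
          ∑ e ∈ Ev, (F'.filter (fun A => A ∩ S e ∈ B e)).card := by omega
      exact_mod_cast h4
    have hbad : ∀ e ∈ Ev, ((F'.filter (fun A => A ∩ S e ∈ B e)).card : ℝ) ≤
        w e * (G.card : ℝ) := by
      intro e he
      rw [hEv, mem_filter] at he
      obtain ⟨heE, hve, hSe⟩ := he
      have h1 : (F'.filter (fun A => A ∩ S e ∈ B e)).card ≤
          (B e ×ˢ good E S B (U \ S e)).card := by
        apply card_le_card_of_injOn (fun A => (A ∩ S e, A \ S e))
        · intro A hA
          rw [mem_coe, mem_filter, hF', mem_filter, mem_powerset] at hA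
          obtain ⟨⟨hA1, hA2⟩, hA3⟩ := hA
          rw [mem_coe, mem_product]
          refine ⟨hA3, ?_⟩
          simp only
          rw [mem_good]
          rw [hG, mem_good] at hA2
          have hsub : A \ S e ⊆ U \ S e := by
            intro x hx
            rw [mem_sdiff] at hx ⊢
            refine ⟨?_, hx.2⟩
            have := hA1 hx.1
            rw [mem_insert] at this
            rcases this with rfl | h2
            · exact absurd hve hx.2
            · exact h2
          refine ⟨hsub, ?_⟩
          intro e' he' hSe' hbad'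
          have h3 : S e' ⊆ U := hSe'.trans sdiff_subset
          have h4 := hA2.2 e' he' h3
          apply h4
          have h5 : A.erase v ∩ S e' = A \ S e ∩ S e' := by
            ext x
            simp only [mem_inter, mem_erase, mem_sdiff]
            constructor
            · rintro ⟨⟨_, h6⟩, h7⟩
              have := hSe' h7
              rw [mem_sdiff] at this
              exact ⟨⟨h6, this.2⟩, h7⟩
            · rintro ⟨⟨h6, h7⟩, h8⟩
              refine ⟨⟨?_, h6⟩, h8⟩
              rintro rfl; exact h7 hve
          rw [h5]; exact hbad'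
        · intro A _ A' _ h
          simp only [Prod.mk.injEq] at h
          rw [← Finset.sdiff_union_inter A (S e), ← Finset.sdiff_union_inter A' (S e),
            h.1, h.2]
      rw [card_product] at h1
      have h2 := sub ((S e).erase v) (by
        intro x hx
        rw [mem_erase] at hx
        have := hSe hx.2
        rw [mem_insert] at this
        exact this.resolve_left hx.1)
      have h3 : U \ (S e).erase v = U \ S e := by
        ext x
        simp only [mem_sdiff, mem_erase, not_and]
        constructor
        · rintro ⟨h4, h5⟩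
          refine ⟨h4, h5 ?_⟩
          rintro rfl; exact hv h4
        · rintro ⟨h4, h5⟩
          exact ⟨h4, fun _ => h5⟩
      rw [h3, card_erase_of_mem hve] at h2
      have h4 := hB e heE
      have h5 : ((F'.filter (fun A => A ∩ S e ∈ B e)).card : ℝ) ≤
          ((B e).card : ℝ) * ((good E S B (U \ S e)).card : ℝ) := by exact_mod_cast h1
      calc ((F'.filter (fun A => A ∩ S e ∈ B e)).card : ℝ)
          ≤ ((B e).card : ℝ) * ((good E S B (U \ S e)).card : ℝ) := h5
        _ ≤ (w e * β ^ ((S e).card - 1)) * ((good E S B (U \ S e)).card : ℝ) :=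
            mul_le_mul_of_nonneg_right h4 (by positivity)
        _ = w e * (β ^ ((S e).card - 1) * ((good E S B (U \ S e)).card : ℝ)) := by ring
        _ ≤ w e * (G.card : ℝ) := mul_le_mul_of_nonneg_left h2 (hw0 e heE)
    have hsum : ∑ e ∈ Ev, ((F'.filter (fun A => A ∩ S e ∈ B e)).card : ℝ) ≤
        (2 - β) * (G.card : ℝ) := by
      calc ∑ e ∈ Ev, ((F'.filter (fun A => A ∩ S e ∈ B e)).card : ℝ)
          ≤ ∑ e ∈ Ev, w e * (G.card : ℝ) := sum_le_sum hbad
        _ = (∑ e ∈ Ev, w e) * (G.card : ℝ) := by rw [sum_mul]
        _ ≤ (∑ e ∈ E.filter (fun e => v ∈ S e), w e) * (G.card : ℝ) := by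
            apply mul_le_mul_of_nonneg_right _ (by positivity)
            apply sum_le_sum_of_subset_of_nonneg
            · intro e he
              rw [hEv, mem_filter] at he
              rw [mem_filter]; exact ⟨he.1, he.2.1⟩
            · intro e he _
              rw [mem_filter] at he
              exact hw0 e he.1
        _ ≤ _ := mul_le_mul_of_nonneg_right (hw v) (by positivity)
    have hF2 : 2 * (G.card : ℝ) ≤ (F'.card : ℝ) := by exact_mod_cast hF
    linarith

theorem rosenfeld (hβ : 1 ≤ β) (hS : ∀ e ∈ E, (S e).Nonempty) (hw0 : ∀ e ∈ E, 0 ≤ w e)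
    (hB : ∀ e ∈ E, ((B e).card : ℝ) ≤ w e * β ^ ((S e).card - 1))
    (hw : ∀ v, ∑ e ∈ E.filter (fun e => v ∈ S e), w e ≤ 2 - β) (U : Finset V) :
    ∃ A, A ⊆ U ∧ ∀ e ∈ E, S e ⊆ U → A ∩ S e ∉ B e := by
  have key : ∀ U : Finset V, 0 < ((good E S B U).card : ℝ) := by
    intro U
    induction U using Finset.induction_on with
    | empty =>
      have : (∅ : Finset V) ∈ good E S B ∅ := by
        rw [mem_good]
        refine ⟨subset_rfl, ?_⟩
        intro e he h
        have := hS e he
        rw [subset_empty] at h
        rw [h] at this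
        exact absurd this (by simp)
      exact_mod_cast card_pos.2 ⟨_, this⟩
    | insert v U hv ih =>
      have := good_step E S B w β hβ hS hw0 hB hw U.card U rfl v hv
      have h2 : 0 < β * ((good E S B U).card : ℝ) := by positivity
      linarith
  have h1 := key U
  have h2 : 0 < (good E S B U).card := by exact_mod_cast h1
  obtain ⟨A, hA⟩ := card_pos.1 h2
  rw [mem_good] at hA
  exact ⟨A, hA⟩

end main

section patterns

variable {V : Type} [DecidableEq V]

open Classical in
/-- Sets that meet each class. -/
noncomputable def pat (s : Multiset (Multiset V)) : Finset (Finset V) :=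
  s.join.toFinset.powerset.filter (fun A => ∀ O ∈ s, ∃ v ∈ O, v ∈ A)

theorem mem_pat {s : Multiset (Multiset V)} {A : Finset V} :
    A ∈ pat s ↔ A ⊆ s.join.toFinset ∧ ∀ O ∈ s, ∃ v ∈ O, v ∈ A := by
  classical
  rw [pat, mem_filter, mem_powerset]

open Classical in
/-- Sets whose complement meets each class. -/
noncomputable def pat' (s : Multiset (Multiset V)) : Finset (Finset V) :=
  s.join.toFinset.powerset.filter (fun A => ∀ O ∈ s, ∃ v ∈ O, v ∉ A)

theorem mem_pat' {s : Multiset (Multiset V)} {A : Finset V} :
    A ∈ pat' s ↔ A ⊆ s.join.toFinset ∧ ∀ O ∈ s, ∃ v ∈ O, v ∉ A := by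
  classical
  rw [pat', mem_filter, mem_powerset]

theorem pow_bound {r : ℕ} (h : r ≤ 4) : (2 : ℝ) ^ r - 1 ≤ (49 / 50) * (99 / 50) ^ r := by
  interval_cases r <;> norm_num

theorem card_pat (s : Multiset (Multiset V)) (hnd : s.join.Nodup)
    (h4 : ∀ O ∈ s, Multiset.card O ≤ 4) :
    ((pat s).card : ℝ) ≤ (49 / 50) ^ (Multiset.card s) * (99 / 50) ^ s.join.toFinset.card := by
  classical
  induction s using Multiset.induction_on with
  | empty =>
    have : pat (0 : Multiset (Multiset V)) ⊆ {∅} := by
      intro A hA
      rw [mem_pat] at hA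
      rw [mem_singleton]
      simpa using hA.1
    have := card_le_card this
    simp at this ⊢
    exact_mod_cast this
  | cons O s ih =>
    rw [Multiset.join_cons, Multiset.nodup_add] at hnd
    obtain ⟨hO, hs, hdisj⟩ := hnd
    have ih' := ih hs (fun O hO => h4 O (Multiset.mem_cons_of_mem hO))
    have hO4 := h4 O (Multiset.mem_cons_self O s)
    have hcardO : O.toFinset.card = Multiset.card O :=
      Multiset.toFinset_card_of_nodup hO
    have hjoin : (O ::ₘ s).join.toFinset = O.toFinset ∪ s.join.toFinset := by
      rw [Multiset.join_cons, Multiset.toFinset_add]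
    have hdisjF : Disjoint O.toFinset s.join.toFinset := by
      rw [Finset.disjoint_left]
      intro x h1 h2
      rw [Multiset.mem_toFinset] at h1 h2
      exact (Multiset.disjoint_left.1 hdisj) h1 h2
    have h1 : (pat (O ::ₘ s)).card ≤ ((O.toFinset.powerset.erase ∅) ×ˢ pat s).card := by
      apply card_le_card_of_injOn (fun A => (A ∩ O.toFinset, A ∩ s.join.toFinset))
      · intro A hA
        rw [mem_coe, mem_pat] at hA
        obtain ⟨_, hA2⟩ := hA
        rw [mem_coe, mem_product, mem_erase, mem_powerset, mem_pat]
        refine ⟨⟨?_, inter_subset_right⟩, inter_subset_right, ?_⟩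
        · obtain ⟨v, hv1, hv2⟩ := hA2 O (Multiset.mem_cons_self O s)
          intro h
          have : v ∈ A ∩ O.toFinset := mem_inter.2 ⟨hv2, Multiset.mem_toFinset.2 hv1⟩
          simp only at h
          rw [h] at this
          simp at this
        · intro O' hO'
          obtain ⟨v, hv1, hv2⟩ := hA2 O' (Multiset.mem_cons_of_mem hO')
          refine ⟨v, hv1, ?_⟩
          rw [mem_inter, Multiset.mem_toFinset, Multiset.mem_join]
          exact ⟨hv2, O', hO', hv1⟩
      · intro A hA A' hA' h
        rw [mem_coe, mem_pat, hjoin] at hA hA'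
        simp only [Prod.mk.injEq] at h
        have e : ∀ X : Finset V, X ⊆ O.toFinset ∪ s.join.toFinset →
            X = X ∩ O.toFinset ∪ X ∩ s.join.toFinset := by
          intro X hX
          rw [← inter_union_distrib_left, inter_eq_left.2 hX]
        rw [e A hA.1, e A' hA'.1, h.1, h.2]
    rw [card_product, card_erase_of_mem (by simp), card_powerset, hcardO] at h1
    have h2 : (((2 ^ Multiset.card O - 1 : ℕ)) : ℝ) = (2 : ℝ) ^ Multiset.card O - 1 := by
      rw [Nat.cast_sub Nat.one_le_two_pow]; simp
    have h3 : ((pat (O ::ₘ s)).card : ℝ) ≤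
        ((2 : ℝ) ^ Multiset.card O - 1) * ((pat s).card : ℝ) := by
      rw [← h2]; exact_mod_cast h1
    have h5 := pow_bound hO4
    rw [hjoin, card_union_of_disjoint hdisjF, hcardO, Multiset.card_cons, pow_succ, pow_add]
    calc ((pat (O ::ₘ s)).card : ℝ)
        ≤ ((2 : ℝ) ^ Multiset.card O - 1) * ((pat s).card : ℝ) := h3
      _ ≤ ((49 / 50) * (99 / 50) ^ Multiset.card O) * ((pat s).card : ℝ) :=
          mul_le_mul_of_nonneg_right h5 (by positivity)
      _ ≤ ((49 / 50) * (99 / 50) ^ Multiset.card O) *
          ((49 / 50) ^ (Multiset.card s) * (99 / 50) ^ s.join.toFinset.card) :=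
          mul_le_mul_of_nonneg_left ih' (by positivity)
      _ = _ := by ring

theorem card_pat' (s : Multiset (Multiset V)) : (pat' s).card ≤ (pat s).card := by
  apply card_le_card_of_injOn (fun A => s.join.toFinset \ A)
  · intro A hA
    rw [mem_coe, mem_pat'] at hA
    rw [mem_coe, mem_pat]
    refine ⟨sdiff_subset, ?_⟩
    intro O hO
    obtain ⟨v, hv1, hv2⟩ := hA.2 O hO
    refine ⟨v, hv1, ?_⟩
    rw [mem_sdiff, Multiset.mem_toFinset, Multiset.mem_join]
    exact ⟨⟨O, hO, hv1⟩, hv2⟩
  · intro A hA A' hA' h
    rw [mem_coe, mem_pat'] at hA hA'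
    simp only at h
    rw [← Finset.sdiff_sdiff_eq_self hA.1, ← Finset.sdiff_sdiff_eq_self hA'.1, h]

/-- The colouring lemma. -/
theorem exists_colouring {ι : Type} (E : Finset ι) (cls : ι → Multiset (Multiset V))
    (hnd : ∀ e ∈ E, (cls e).join.Nodup) (h4 : ∀ e ∈ E, ∀ O ∈ cls e, Multiset.card O ≤ 4)
    (hne : ∀ e ∈ E, (cls e).join ≠ 0)
    (hw : ∀ v, ∑ e ∈ E.filter (fun e => v ∈ (cls e).join),
      ((49 : ℝ) / 50) ^ (Multiset.card (cls e)) ≤ 1 / 200) :
    ∃ A : Finset V, ∀ e ∈ E, (∃ O ∈ cls e, ∀ v ∈ O, v ∈ A) ∧ (∃ O ∈ cls e, ∀ v ∈ O, v ∉ A) := by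
  classical
  obtain ⟨A, _, hA⟩ := rosenfeld E (fun e => (cls e).join.toFinset)
    (fun e => pat (cls e) ∪ pat' (cls e))
    (fun e => 2 * (99 / 50) * (49 / 50) ^ (Multiset.card (cls e))) (99 / 50) (by norm_num)
    (by
      intro e he
      rw [Finset.nonempty_iff_ne_empty, Ne, Multiset.toFinset_eq_empty]
      exact hne e he)
    (by intro e _; positivity)
    (by
      intro e he
      have h1 := card_pat (cls e) (hnd e he) (h4 e he)
      have h2 : ((pat' (cls e)).card : ℝ) ≤ ((pat (cls e)).card : ℝ) := by
        exact_mod_cast card_pat' (cls e)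
      have h3 : ((pat (cls e) ∪ pat' (cls e)).card : ℝ) ≤
          ((pat (cls e)).card : ℝ) + ((pat' (cls e)).card : ℝ) := by
        exact_mod_cast card_union_le _ _
      have hpos : 0 < (cls e).join.toFinset.card := by
        rw [card_pos, Finset.nonempty_iff_ne_empty, Ne, Multiset.toFinset_eq_empty]
        exact hne e he
      obtain ⟨m, hm⟩ : ∃ m, (cls e).join.toFinset.card = m + 1 :=
        ⟨(cls e).join.toFinset.card - 1, by omega⟩
      rw [hm] at h1 ⊢
      simp only [Nat.add_sub_cancel]
      rw [pow_succ] at h1
      calc ((pat (cls e) ∪ pat' (cls e)).card : ℝ)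
          ≤ 2 * ((pat (cls e)).card : ℝ) := by linarith
        _ ≤ 2 * ((49 / 50) ^ (Multiset.card (cls e)) * ((99 / 50) ^ m * (99 / 50))) := by
            linarith
        _ = _ := by ring)
    (by
      intro v
      have h1 := hw v
      have h2 : (E.filter (fun e => v ∈ (cls e).join.toFinset)) =
          E.filter (fun e => v ∈ (cls e).join) := by
        apply filter_congr
        intro e _
        rw [Multiset.mem_toFinset]
      rw [h2, ← Finset.mul_sum]
      linarith)
    (E.biUnion (fun e => (cls e).join.toFinset))
  refine ⟨A, ?_⟩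
  intro e he
  have h1 := hA e he (Finset.subset_biUnion_of_mem (fun e => (cls e).join.toFinset) he)
  rw [mem_union, not_or, mem_pat, mem_pat'] at h1
  obtain ⟨h2, h3⟩ := h1
  constructor
  · -- the class inside A
    by_contra hcon
    push Not at hcon
    apply h3
    refine ⟨inter_subset_right, ?_⟩
    intro O hO
    obtain ⟨v, hv1, hv2⟩ := hcon O hO
    exact ⟨v, hv1, fun h => hv2 (mem_inter.1 h).1⟩
  · by_contra hcon
    push Not at hcon
    apply h2
    refine ⟨inter_subset_right, ?_⟩
    intro O hO
    obtain ⟨v, hv1, hv2⟩ := hcon O hO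
    refine ⟨v, hv1, mem_inter.2 ⟨hv2, ?_⟩⟩
    rw [Multiset.mem_toFinset, Multiset.mem_join]
    exact ⟨O, hO, hv1⟩

end patterns

end RamseyTower
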