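import Pool.Agent.W_MP_3aefc9_co.Counts
import Pool.Agent.W_MP_3aefc9_co.Rosenfeld

/-!
# Choice of the classes and the degree condition
-/

namespace RamseyTower

open F

namespace F

theorem ne_zero_start (f : F) : ∀ O ∈ start f, O ≠ 0 := by
  intro O hO
  rcases start_cases f with h0 | ⟨n, rfl, h0⟩ | ⟨rfl, h0⟩ | ⟨rfl, h0⟩ | ⟨n, rfl, h0⟩ <;>
  · rw [h0] at hO
    try simp at hO
    try (subst hO; simp)

theorem ne_zero_here (f : F) : ∀ O ∈ here f, O ≠ 0 := by
  intro O hO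
  rcases here_cases f with h0 | ⟨n, rfl, h0⟩ <;>
  · rw [h0] at hO
    try simp at hO
    try (subst hO; simp)

theorem ne_zero_win (f : F) : ∀ O ∈ win f, O ≠ 0 := by
  induction f with
  | nil => intro O hO; simp [win] at hO
  | cons d c n _ ih =>
    intro O hO
    rw [win, Multiset.mem_add, AC_apply, Multiset.mem_map] at hO
    rcases hO with hO | ⟨O', h1, rfl⟩
    · exact ne_zero_here _ O hO
    · rw [Ne, Multiset.map_eq_zero]; exact ih O' h1

theorem ne_zero_spots0 (f : F) : ∀ O ∈ spots0 f, O ≠ 0 := by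
  intro O hO
  rw [spots0, Multiset.mem_add] at hO
  rcases hO with hO | hO
  · exact ne_zero_start f O hO
  · exact ne_zero_win f O hO

theorem ne_zero_spots (f : F) : ∀ O ∈ spots f, O ≠ 0 := by
  have key : ∀ f, ∀ O ∈ allS AC spots0 f, O ≠ 0 := by
    intro f
    induction f with
    | nil => intro O hO; simp [allS] at hO
    | cons d c n ihc ih =>
      intro O hO
      rw [allS_cons, Multiset.mem_add, AC_apply, AC_apply, Multiset.mem_map,
        Multiset.mem_map] at hO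
      rcases hO with ⟨O', h1, rfl⟩ | ⟨O', h1, rfl⟩
      · rw [Ne, Multiset.map_eq_zero]
        rw [all, Multiset.mem_add] at h1
        rcases h1 with h1 | h1
        · exact ne_zero_spots0 c O' h1
        · exact ihc O' h1
      · rw [Ne, Multiset.map_eq_zero]; exact ih O' h1
  intro O hO
  rw [spots, all, Multiset.mem_add] at hO
  rcases hO with hO | hO
  · exact ne_zero_spots0 f O hO
  · exact key f O hO

/-- A finite set containing all forests of size at most `m`. -/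
def upto : ℕ → Finset F
  | 0 => {nil}
  | m + 1 => insert nil (((Finset.univ : Finset Bool) ×ˢ (upto m ×ˢ upto m)).image
      (fun p => cons p.1 p.2.1 p.2.2))

theorem mem_upto : ∀ (m : ℕ) (f : F), size f ≤ m → f ∈ upto m
  | 0, nil, _ => by simp [upto]
  | 0, cons d c n, h => by simp [size] at h
  | m + 1, nil, _ => by simp [upto]
  | m + 1, cons d c n, h => by
    simp only [size] at h
    rw [upto, Finset.mem_insert, Finset.mem_image]
    right
    exact ⟨(d, c, n), by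
      simp only [Finset.mem_product, Finset.mem_univ, true_and]
      exact ⟨mem_upto m c (by omega), mem_upto m n (by omega)⟩, rfl⟩

/-- The number of classes at level `j`. -/
def M (h j : ℕ) (f : F) : ℕ := Tot AN (h - j) (h + 1 + 2 * j) sp0 f

theorem card_sel (a b : ℕ) (f : F) : Multiset.card (sel a b f) = Tot AN a b sp0 f :=
  hom_Tot AC AN Multiset.cardHom (fun φ x => by simp) spots0 a b f

theorem card_spots (f : F) : Multiset.card (spots f) = all AN sp0 f :=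
  hom_all AC AN Multiset.cardHom (fun φ x => by simp) spots0 f

theorem M_le_all (h j : ℕ) (f : F) : M h j f ≤ all AN sp0 f := Tot_le_all AN sp0 _ _ f

theorem exists_level (h θ : ℕ) (f : F) (h0 : θ ≤ M h 0 f) (h1 : all AN sp0 f < 2 ^ h * θ) :
    ∃ j, j < h ∧ 2 ^ j * θ ≤ M h j f ∧ M h (j + 1) f ≤ 2 * M h j f := by
  by_contra hcon
  push Not at hcon
  have key : ∀ j, j ≤ h → 2 ^ j * θ ≤ M h j f := by
    intro j
    induction j with
    | zero => intro _; simpa using h0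
    | succ j ih =>
      intro hj
      have h2 := ih (by omega)
      have h3 := hcon j (by omega) h2
      rw [pow_succ]
      nlinarith
  have := key h le_rfl
  have h2 := M_le_all h h f
  omega

open Classical in
/-- The chosen level. -/
noncomputable def lev (h θ : ℕ) (f : F) : ℕ :=
  if hex : ∃ j, j < h ∧ 2 ^ j * θ ≤ M h j f ∧ M h (j + 1) f ≤ 2 * M h j f then hex.choose else 0

theorem lev_spec (h θ : ℕ) (f : F) (h0 : θ ≤ M h 0 f) (h1 : all AN sp0 f < 2 ^ h * θ) :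
    lev h θ f < h ∧ 2 ^ (lev h θ f) * θ ≤ M h (lev h θ f) f ∧
      M h (lev h θ f + 1) f ≤ 2 * M h (lev h θ f) f := by
  have hex := exists_level h θ f h0 h1
  rw [lev, dif_pos hex]
  exact hex.choose_spec

/-- The chosen classes. -/
noncomputable def cls (h θ : ℕ) (f : F) : Multiset (Multiset F) :=
  if 2 ^ h * θ ≤ all AN sp0 f then spots f
  else sel (h - lev h θ f) (h + 1 + 2 * lev h θ f) f

theorem cls_le (h θ : ℕ) (f : F) : cls h θ f ≤ spots f := by
  unfold cls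
  split_ifs
  · exact le_rfl
  · exact sel_le _ _ _

theorem card_deg (h j : ℕ) (hj : j < h) {τ σ : F} (hτ : Alt τ) (hσ : σ ∈ all AM out0 τ) :
    Multiset.card (Tot AM (h - j) (h + 1 + 2 * j + 1) und0 σ) ≤
      5 * ((2 + 9 * (3 * j + 4)) * M h (j + 1) τ + 1) := by
  have h1 := degree_bound (h - j - 1) (3 * j + 2) hτ hσ
  have e1 : h - j - 1 + 1 = h - j := by omega
  have e2 : h - j - 1 + (3 * j + 2) + 1 = h + 1 + 2 * j + 1 := by omega
  have e3 : h - j - 1 + (3 * j + 2 + 2) = h + 1 + 2 * (j + 1) := by omega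
  have e4 : h - j - 1 = h - (j + 1) := by omega
  rw [e1, e2, e3] at h1
  rw [M, ← e4]
  exact h1

end F

open Finset

/-- The set of forests considered. -/
noncomputable def evs (s H : ℕ) : Finset F := by
  classical
  exact (F.upto s).filter (fun τ => F.size τ = s ∧ F.Alt τ ∧ F.ht τ ≤ H)

theorem mem_evs {s H : ℕ} {τ : F} :
    τ ∈ evs s H ↔ F.size τ = s ∧ F.Alt τ ∧ F.ht τ ≤ H := by
  classical
  rw [evs, mem_filter]
  constructor
  · exact fun h => h.2
  · exact fun h => ⟨F.mem_upto s τ h.1.le, h⟩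

/-- Contribution of one level. -/
theorem level_sum (h θ j : ℕ) (hθ : 1 ≤ θ) (hj : j < h)
    (hC : ∀ s : ℕ, θ ≤ s → (400 : ℝ) * s ^ 2 * (49 / 50) ^ s ≤ (99 / 100) ^ s)
    (σ : F) (X : Finset F)
    (hX : ∀ τ ∈ X, F.Alt τ ∧ 2 ^ j * θ ≤ F.M h j τ ∧ F.M h (j + 1) τ ≤ 2 * F.M h j τ ∧
      σ ∈ F.Tot F.AM (h - j) (h + 1 + 2 * j) F.out0 τ) :
    ∑ τ ∈ X, ((49 : ℝ) / 50) ^ (F.M h j τ) ≤ ((99 / 100) ^ θ) ^ (j + 1) := by
  classical
  rcases X.eq_empty_or_nonempty with rfl | hne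
  · rw [sum_empty]; positivity
  obtain ⟨τ0, hτ0, hmin⟩ := exists_min_image X (fun τ => F.M h j τ) hne
  obtain ⟨ha, hb, hc, hd⟩ := hX τ0 hτ0
  set s := F.M h j τ0 with hs
  have hcard : X.card ≤ 5 * ((2 + 9 * (3 * j + 4)) * F.M h (j + 1) τ0 + 1) := by
    have h1 : X ⊆ (F.Tot F.AM (h - j) (h + 1 + 2 * j + 1) F.und0 σ).toFinset := by
      intro τ hτ
      rw [Multiset.mem_toFinset]
      exact F.mem_undo_sel (hX τ hτ).2.2.2
    have h2 := card_le_card h1
    have h3 := Multiset.toFinset_card_le (F.Tot F.AM (h - j) (h + 1 + 2 * j + 1) F.und0 σ)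
    have h4 : σ ∈ F.all F.AM F.out0 τ0 :=
      Multiset.mem_of_le (F.Tot_le_all F.AM F.out0 _ _ τ0) hd
    have h5 := F.card_deg h j hj ha h4
    omega
  have hpow : j + 1 ≤ 2 ^ j := Nat.lt_two_pow_self
  have hj1 : j + 1 ≤ s := by
    calc j + 1 ≤ 2 ^ j * 1 := by omega
      _ ≤ 2 ^ j * θ := Nat.mul_le_mul_left _ hθ
      _ ≤ s := hb
  have hθs : θ ≤ s := by
    calc θ = 1 * θ := (one_mul θ).symm
      _ ≤ 2 ^ j * θ := Nat.mul_le_mul_right _ Nat.one_le_two_pow
      _ ≤ s := hb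
  have hcard2 : X.card ≤ 400 * s ^ 2 := by
    have h1 : 5 * ((2 + 9 * (3 * j + 4)) * F.M h (j + 1) τ0 + 1) ≤
        5 * ((2 + 9 * (3 * j + 4)) * (2 * s) + 1) := by
      have := Nat.mul_le_mul_left (2 + 9 * (3 * j + 4)) hc
      omega
    refine (hcard.trans h1).trans ?_
    have h3 : 1 ≤ s := by omega
    nlinarith
  have h1 : ∑ τ ∈ X, ((49 : ℝ) / 50) ^ (F.M h j τ) ≤ ∑ _τ ∈ X, ((49 : ℝ) / 50) ^ s := by
    apply sum_le_sum
    intro τ hτ
    exact pow_le_pow_of_le_one (by norm_num) (by norm_num) (hmin τ hτ)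
  refine h1.trans ?_
  rw [sum_const, nsmul_eq_mul]
  have h2 : (X.card : ℝ) ≤ 400 * (s : ℝ) ^ 2 := by exact_mod_cast hcard2
  calc (X.card : ℝ) * (49 / 50) ^ s ≤ 400 * (s : ℝ) ^ 2 * (49 / 50) ^ s :=
        mul_le_mul_of_nonneg_right h2 (by positivity)
    _ ≤ (99 / 100) ^ s := hC s hθs
    _ ≤ (99 / 100) ^ (θ * (j + 1)) := by
        apply pow_le_pow_of_le_one (by norm_num) (by norm_num)
        calc θ * (j + 1) ≤ θ * 2 ^ j := Nat.mul_le_mul_left _ hpow
          _ = 2 ^ j * θ := mul_comm _ _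
          _ ≤ s := hb
    _ = _ := by rw [pow_mul]

theorem geom_bound (q : ℝ) (h0 : 0 ≤ q) (h1 : q ≤ 1 / 800) (h : ℕ) :
    ∑ j ∈ range h, q ^ (j + 1) ≤ 1 / 400 := by
  have key : ∀ h : ℕ, ∑ j ∈ range h, q ^ (j + 1) ≤ 1 / 400 - (1 / 400) * (1 / 2) ^ h := by
    intro h
    induction h with
    | zero => simp
    | succ h ih =>
      rw [sum_range_succ]
      have h2 : q ^ (h + 1) ≤ (1 / 800) * (1 / 2) ^ h := by
        rw [pow_succ, mul_comm]
        have h3 : q ^ h ≤ (1 / 2 : ℝ) ^ h := pow_le_pow_left₀ h0 (by linarith) h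
        exact mul_le_mul h1 h3 (by positivity) (by norm_num)
      have e : (1 / 2 : ℝ) ^ (h + 1) = (1 / 2) ^ h * (1 / 2) := pow_succ _ _
      rw [e]
      linarith
  have := key h
  have h2 : (0 : ℝ) ≤ (1 / 400) * (1 / 2) ^ h := by positivity
  linarith

/-- The degree condition of the colouring lemma. -/
theorem degree_condition (h θ s H : ℕ) (hθ : 1 ≤ θ)
    (hC : ∀ s : ℕ, θ ≤ s → (400 : ℝ) * s ^ 2 * (49 / 50) ^ s ≤ (99 / 100) ^ s)
    (hq : ((99 : ℝ) / 100) ^ θ ≤ 1 / 800)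
    (h1 : (2 + 9 * h) * (2 ^ h * θ) + 9 * H * θ < s)
    (h2 : (5 * (s : ℝ) + 4) * (49 / 50) ^ (2 ^ h * θ) ≤ 1 / 400) (σ : F) :
    ∑ τ ∈ (evs s H).filter (fun τ => σ ∈ (F.cls h θ τ).join),
      ((49 : ℝ) / 50) ^ (Multiset.card (F.cls h θ τ)) ≤ 1 / 200 := by
  classical
  set X := (evs s H).filter (fun τ => σ ∈ (F.cls h θ τ).join) with hX
  rw [← sum_filter_add_sum_filter_not X (fun τ => 2 ^ h * θ ≤ F.all F.AN F.sp0 τ)]
  set XA := X.filter (fun τ => 2 ^ h * θ ≤ F.all F.AN F.sp0 τ) with hXA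
  set XB := X.filter (fun τ => ¬ 2 ^ h * θ ≤ F.all F.AN F.sp0 τ) with hXB
  -- rich forests
  have hA : ∑ τ ∈ XA, ((49 : ℝ) / 50) ^ (Multiset.card (F.cls h θ τ)) ≤ 1 / 400 := by
    have hmem : ∀ τ ∈ XA, F.size τ = s ∧ 2 ^ h * θ ≤ F.all F.AN F.sp0 τ ∧
        σ ∈ F.all F.AM F.out0 τ := by
      intro τ hτ
      rw [hXA, mem_filter, hX, mem_filter, mem_evs] at hτ
      obtain ⟨⟨⟨h3, _, _⟩, h4⟩, h5⟩ := hτ
      refine ⟨h3, h5, ?_⟩
      rw [F.cls, if_pos h5] at h4
      rw [← F.spots_join]; exact h4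
    have hsum : ∑ τ ∈ XA, ((49 : ℝ) / 50) ^ (Multiset.card (F.cls h θ τ)) ≤
        ∑ _τ ∈ XA, ((49 : ℝ) / 50) ^ (2 ^ h * θ) := by
      apply sum_le_sum
      intro τ hτ
      obtain ⟨_, h5, _⟩ := hmem τ hτ
      rw [F.cls, if_pos h5, F.card_spots]
      exact pow_le_pow_of_le_one (by norm_num) (by norm_num) h5
    refine hsum.trans ?_
    rw [sum_const, nsmul_eq_mul]
    have hcard : XA.card ≤ 5 * s + 4 := by
      rcases XA.eq_empty_or_nonempty with he | ⟨τ0, hτ0⟩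
      · rw [he]; simp
      · have h6 : XA ⊆ (F.all F.AM F.und0 σ).toFinset := by
          intro τ hτ
          rw [Multiset.mem_toFinset]
          exact F.mem_undo_all (hmem τ hτ).2.2
        have h7 := card_le_card h6
        have h8 := Multiset.toFinset_card_le (F.all F.AM F.und0 σ)
        have h9 := F.card_all_und0 σ
        obtain ⟨h10, _, h11⟩ := hmem τ0 hτ0
        obtain ⟨t, ht⟩ := F.cmp_all h11
        have := ht.sz
        omega
    have hcard' : (XA.card : ℝ) ≤ 5 * (s : ℝ) + 4 := by exact_mod_cast hcard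
    exact (mul_le_mul_of_nonneg_right hcard' (by positivity)).trans h2
  -- poor forests
  have hB : ∑ τ ∈ XB, ((49 : ℝ) / 50) ^ (Multiset.card (F.cls h θ τ)) ≤ 1 / 400 := by
    have hmem : ∀ τ ∈ XB, F.Alt τ ∧ F.lev h θ τ < h ∧
        2 ^ (F.lev h θ τ) * θ ≤ F.M h (F.lev h θ τ) τ ∧
        F.M h (F.lev h θ τ + 1) τ ≤ 2 * F.M h (F.lev h θ τ) τ ∧
        σ ∈ F.Tot F.AM (h - F.lev h θ τ) (h + 1 + 2 * F.lev h θ τ) F.out0 τ ∧
        Multiset.card (F.cls h θ τ) = F.M h (F.lev h θ τ) τ := by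
      intro τ hτ
      rw [hXB, mem_filter, hX, mem_filter, mem_evs] at hτ
      obtain ⟨⟨⟨h3, h3', h3''⟩, h4⟩, h5⟩ := hτ
      have h6 : θ ≤ F.M h 0 τ := by
        by_contra hcon
        have h7 := F.size_le h H τ h3' h3''
        rw [h3] at h7
        have h8 : F.Tot F.AN h (h + 1) F.sp0 τ = F.M h 0 τ := rfl
        rw [h8] at h7
        have h9 : (2 + 9 * h) * F.all F.AN F.sp0 τ ≤ (2 + 9 * h) * (2 ^ h * θ) :=
          Nat.mul_le_mul_left _ (by omega)
        have h10 : 9 * H * F.M h 0 τ ≤ 9 * H * θ := Nat.mul_le_mul_left _ (by omega)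
        omega
      obtain ⟨h7, h8, h9⟩ := F.lev_spec h θ τ h6 (by omega)
      refine ⟨h3', h7, h8, h9, ?_, ?_⟩
      · rw [F.cls, if_neg h5] at h4
        rw [← F.sel_join]; exact h4
      · rw [F.cls, if_neg h5, F.card_sel]; rfl
    have hfib := sum_fiberwise_of_maps_to (s := XB) (t := range h) (g := F.lev h θ)
      (fun τ hτ => mem_range.2 (hmem τ hτ).2.1)
      (fun τ => ((49 : ℝ) / 50) ^ (Multiset.card (F.cls h θ τ)))
    rw [← hfib]
    refine (sum_le_sum ?_).trans (geom_bound (((99 : ℝ) / 100) ^ θ) (by positivity) hq h)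
    intro j hj
    rw [mem_range] at hj
    have hlev := level_sum h θ j hθ hj hC σ (XB.filter (fun τ => F.lev h θ τ = j)) (by
      intro τ hτ
      rw [mem_filter] at hτ
      obtain ⟨hτ1, hτ2⟩ := hτ
      obtain ⟨a1, _, a3, a4, a5, _⟩ := hmem τ hτ1
      rw [hτ2] at a3 a4 a5
      exact ⟨a1, a3, a4, a5⟩)
    refine le_trans (le_of_eq ?_) hlev
    apply sum_congr rfl
    intro τ hτ
    rw [mem_filter] at hτ
    obtain ⟨hτ1, hτ2⟩ := hτ
    rw [(hmem τ hτ1).2.2.2.2.2, hτ2]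
  linarith

/-- Existence of the colouring of forests. -/
theorem exists_forest_colouring (h θ s H : ℕ) (hθ : 1 ≤ θ)
    (hC : ∀ s : ℕ, θ ≤ s → (400 : ℝ) * s ^ 2 * (49 / 50) ^ s ≤ (99 / 100) ^ s)
    (hq : ((99 : ℝ) / 100) ^ θ ≤ 1 / 800)
    (h1 : (2 + 9 * h) * (2 ^ h * θ) + 9 * H * θ < s)
    (h2 : (5 * (s : ℝ) + 4) * (49 / 50) ^ (2 ^ h * θ) ≤ 1 / 400) :
    ∃ A : Finset F, ∀ τ, F.size τ = s → F.Alt τ → F.ht τ ≤ H →
      (∃ O ∈ F.spots τ, ∀ v ∈ O, v ∈ A) ∧ (∃ O ∈ F.spots τ, ∀ v ∈ O, v ∉ A) := by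
  obtain ⟨A, hA⟩ := exists_colouring (evs s H) (F.cls h θ)
    (fun τ hτ => F.nodup_of_le_spots (mem_evs.1 hτ).2.1 (F.cls_le h θ τ))
    (fun τ _ O hO => F.card_le_four τ O (Multiset.mem_of_le (F.cls_le h θ τ) hO))
    (by
      intro τ hτ
      rw [mem_evs] at hτ
      obtain ⟨h3, h3', h3''⟩ := hτ
      have hcard : 1 ≤ Multiset.card (F.cls h θ τ) := by
        by_cases h5 : 2 ^ h * θ ≤ F.all F.AN F.sp0 τ
        · rw [F.cls, if_pos h5, F.card_spots]
          have : 1 ≤ 2 ^ h * θ := Nat.one_le_iff_ne_zero.2 (by positivity)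
          omega
        · have h6 : θ ≤ F.M h 0 τ := by
            by_contra hcon
            have h7 := F.size_le h H τ h3' h3''
            rw [h3] at h7
            have h8 : F.Tot F.AN h (h + 1) F.sp0 τ = F.M h 0 τ := rfl
            rw [h8] at h7
            have h9 : (2 + 9 * h) * F.all F.AN F.sp0 τ ≤ (2 + 9 * h) * (2 ^ h * θ) :=
              Nat.mul_le_mul_left _ (by omega)
            have h10 : 9 * H * F.M h 0 τ ≤ 9 * H * θ := Nat.mul_le_mul_left _ (by omega)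
            omega
          obtain ⟨_, h8, _⟩ := F.lev_spec h θ τ h6 (by omega)
          rw [F.cls, if_neg h5, F.card_sel]
          have : 1 ≤ 2 ^ (F.lev h θ τ) * θ := Nat.one_le_iff_ne_zero.2 (by positivity)
          exact this.trans h8
      obtain ⟨O, hO⟩ := Multiset.card_pos_iff_exists_mem.1 (show 0 < _ by exact hcard)
      have h7 := F.ne_zero_spots τ O (Multiset.mem_of_le (F.cls_le h θ τ) hO)
      obtain ⟨v, hv⟩ := Multiset.exists_mem_of_ne_zero h7
      intro h8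
      have : v ∈ (F.cls h θ τ).join := Multiset.mem_join.2 ⟨O, hO, hv⟩
      rw [h8] at this
      simp at this)
    (degree_condition h θ s H hθ hC hq h1 h2)
  refine ⟨A, ?_⟩
  intro τ a b c
  obtain ⟨⟨O, h3, h4⟩, ⟨O', h5, h6⟩⟩ := hA τ (mem_evs.2 ⟨a, b, c⟩)
  exact ⟨⟨O, Multiset.mem_of_le (F.cls_le h θ τ) h3, h4⟩,
    ⟨O', Multiset.mem_of_le (F.cls_le h θ τ) h5, h6⟩⟩

end RamseyTower
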