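import Pool.Agent.W_MP_3aefc9_co.Final

/-!
# The upper bound (the Erdős–Rado argument, in a crude form)
-/

namespace RamseyTower

open Finset

/-- Invariant of the construction of an end-homogeneous set. -/
def EndHom (χ : Finset ℕ → Bool) (A C : Finset ℕ) : Prop :=
  (∀ a ∈ A, ∀ c ∈ C, a < c) ∧
  ∀ S ⊆ A, ∀ x ∈ A ∪ C, ∀ y ∈ A ∪ C, (∀ s ∈ S, s < x) → (∀ s ∈ S, s < y) →
    χ (insert x S) = χ (insert y S)

theorem endHom_step (χ : Finset ℕ → Bool) {A C : Finset ℕ} (h : EndHom χ A C) (N : ℕ)
    (hC : 2 ^ 2 ^ (A.card + 1) * N + 1 ≤ C.card) :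
    ∃ a ∈ C, ∃ C' ⊆ C, a ∉ A ∧ EndHom χ (insert a A) C' ∧ N ≤ C'.card := by
  classical
  have hne : C.Nonempty := by
    rw [← card_pos]; omega
  set a := C.min' hne with ha
  have haC : a ∈ C := min'_mem _ _
  have haA : a ∉ A := fun h1 => lt_irrefl a (h.1 a h1 a haC)
  -- patterns
  set P := (insert a A).powerset with hP
  set f : ℕ → Finset (Finset ℕ) := fun x => P.filter (fun S => χ (insert x S) = true) with hf
  have hmaps : ∀ x ∈ C.erase a, f x ∈ P.powerset := by
    intro x _
    rw [mem_powerset]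
    exact filter_subset _ _
  have hPcard : P.powerset.card = 2 ^ 2 ^ (A.card + 1) := by
    rw [card_powerset, hP, card_powerset, card_insert_of_notMem haA]
  have hle : P.powerset.card * N ≤ (C.erase a).card := by
    rw [hPcard, card_erase_of_mem haC]; omega
  obtain ⟨p, _, hp⟩ := exists_le_card_fiber_of_mul_le_card_of_maps_to hmaps
    ⟨∅, empty_mem_powerset _⟩ hle
  set C' := (C.erase a).filter (fun x => f x = p) with hC'
  have hC'C : C' ⊆ C := (filter_subset _ _).trans (erase_subset _ _)
  have hac : ∀ c ∈ C', a < c := by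
    intro c hc
    rw [hC', mem_filter, mem_erase] at hc
    have h1 : a ≤ c := min'_le _ _ hc.1.2
    exact lt_of_le_of_ne h1 (Ne.symm hc.1.1)
  refine ⟨a, haC, C', hC'C, haA, ⟨?_, ?_⟩, hp⟩
  · intro x hx c hc
    rw [mem_insert] at hx
    rcases hx with rfl | hx
    · exact hac c hc
    · exact h.1 x hx c (hC'C hc)
  · intro S hS x hx y hy hxS hyS
    by_cases haS : a ∈ S
    · have key : ∀ z ∈ insert a A ∪ C', (∀ s ∈ S, s < z) → z ∈ C' := by
        intro z hz hzS
        have h1 : a < z := hzS a haS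
        rw [mem_union, mem_insert] at hz
        rcases hz with (h2 | h2) | h2
        · omega
        · have := h.1 z h2 a haC
          omega
        · exact h2
      have hx' := key x hx hxS
      have hy' := key y hy hyS
      rw [hC', mem_filter] at hx' hy'
      have hxy : f x = f y := by rw [hx'.2, hy'.2]
      have hSP : S ∈ P := by rw [hP, mem_powerset]; exact hS
      have h2 : S ∈ f x ↔ S ∈ f y := by rw [hxy]
      rw [hf, mem_filter, mem_filter] at h2
      cases hcx : χ (insert x S) with
      | true => exact (h2.1 ⟨hSP, hcx⟩).2.symm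
      | false =>
        cases hcy : χ (insert y S) with
        | false => rfl
        | true =>
          have := (h2.2 ⟨hSP, hcy⟩).2
          rw [hcx] at this
          exact this
    · have hSA : S ⊆ A := by
        intro s hs
        have := hS hs
        rw [mem_insert] at this
        rcases this with rfl | h2
        · exact absurd hs haS
        · exact h2
      have key : ∀ z ∈ insert a A ∪ C', z ∈ A ∪ C := by
        intro z hz
        rw [mem_union, mem_insert] at hz
        rw [mem_union]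
        rcases hz with (rfl | h2) | h2
        · right; exact haC
        · left; exact h2
        · right; exact hC'C h2
      exact h.2 S hSA x (key x hx) y (key y hy) hxS hyS

theorem endHom_exists (χ : Finset ℕ → Bool) (m : ℕ) (X : Finset ℕ)
    (hX : 2 ^ 2 ^ (m + 2) ≤ X.card) :
    ∀ i, i ≤ m → ∃ A C, A ⊆ X ∧ C ⊆ X ∧ A.card = i ∧ EndHom χ A C ∧
      2 ^ (2 ^ (m + 2) - 2 ^ (i + 2)) ≤ C.card := by
  classical
  intro i
  induction i with
  | zero =>
    intro _
    have hmaps : ∀ x ∈ X, χ {x} ∈ (univ : Finset Bool) := fun _ _ => mem_univ _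
    have e8 : 4 ≤ 2 ^ (m + 2) := by
      have e9 : 2 ^ (m + 2) = 4 * 2 ^ m := by ring
      have := Nat.one_le_two_pow (n := m)
      omega
    have hle : (univ : Finset Bool).card * 2 ^ (2 ^ (m + 2) - 2 ^ (0 + 2)) ≤ X.card := by
      refine le_trans ?_ hX
      rw [card_univ, Fintype.card_bool]
      have e9 : 2 ^ (0 + 2) = 4 := by norm_num
      rw [e9]
      calc 2 * 2 ^ (2 ^ (m + 2) - 4) = 2 ^ (2 ^ (m + 2) - 4 + 1) := by rw [pow_succ]; ring
        _ ≤ _ := Nat.pow_le_pow_right (by norm_num) (by omega)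
    obtain ⟨b, _, hb⟩ := exists_le_card_fiber_of_mul_le_card_of_maps_to hmaps
      ⟨true, mem_univ _⟩ hle
    refine ⟨∅, X.filter (fun x => χ {x} = b), empty_subset _, filter_subset _ _, rfl,
      ⟨by simp, ?_⟩, hb⟩
    intro S hS x hx y hy _ _
    rw [subset_empty] at hS
    subst hS
    rw [empty_union, mem_filter] at hx hy
    rw [insert_empty_eq, insert_empty_eq, hx.2, hy.2]
  | succ i ih =>
    intro hi
    obtain ⟨A, C, h1, h2, h3, h4, h5⟩ := ih (by omega)
    obtain ⟨a, ha, C', h6, h7, h8, h9⟩ := endHom_step χ h4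
      (2 ^ (2 ^ (m + 2) - 2 ^ (i + 1 + 2))) (by
        refine le_trans ?_ h5
        rw [h3]
        have e1 : 2 ^ (i + 3) ≤ 2 ^ (m + 2) := Nat.pow_le_pow_right (by norm_num) (by omega)
        have e2 : 2 ^ (i + 3) = 8 * 2 ^ i := by ring
        have e3 : 2 ^ (i + 2) = 4 * 2 ^ i := by ring
        have e4 : 2 ^ (i + 1) = 2 * 2 ^ i := by ring
        have e5 : 1 ≤ 2 ^ i := Nat.one_le_two_pow
        have e6 : i + 1 + 2 = i + 3 := rfl
        rw [e6, ← pow_add]
        have e7 : 2 ^ (i + 1) + (2 ^ (m + 2) - 2 ^ (i + 3)) + 1 ≤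
            2 ^ (m + 2) - 2 ^ (i + 2) := by omega
        calc 2 ^ (2 ^ (i + 1) + (2 ^ (m + 2) - 2 ^ (i + 3))) + 1
            ≤ 2 ^ (2 ^ (i + 1) + (2 ^ (m + 2) - 2 ^ (i + 3))) +
              2 ^ (2 ^ (i + 1) + (2 ^ (m + 2) - 2 ^ (i + 3))) := by
                have := Nat.one_le_two_pow (n := 2 ^ (i + 1) + (2 ^ (m + 2) - 2 ^ (i + 3)))
                omega
          _ = 2 ^ (2 ^ (i + 1) + (2 ^ (m + 2) - 2 ^ (i + 3)) + 1) := by
                rw [pow_succ]; ring
          _ ≤ _ := Nat.pow_le_pow_right (by norm_num) e7)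
    refine ⟨insert a A, C', ?_, h6.trans h2, ?_, h8, h9⟩
    · exact insert_subset (h2 ha) h1
    · rw [card_insert_of_notMem h7, h3]

/-- The numbers `g k` of the upper bound. -/
def gER : ℕ → ℕ
  | 0 => 1
  | k + 1 => 2 ^ 2 ^ (gER k + 3)

theorem erdos_rado : ∀ (k : ℕ) (χ : Finset ℕ → Bool) (X : Finset ℕ), gER k ≤ X.card →
    ∃ H ⊆ X, H.card = k + 1 ∧ ∃ i, ∀ S ⊆ H, S.card = k → χ S = i := by
  classical
  intro k
  induction k with
  | zero =>
    intro χ X hX
    rw [gER] at hX
    obtain ⟨x, hx⟩ := card_pos.1 (show 0 < X.card by omega)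
    refine ⟨{x}, singleton_subset_iff.2 hx, by simp, χ ∅, ?_⟩
    intro S _ hS
    rw [card_eq_zero] at hS
    rw [hS]
  | succ k ih =>
    intro χ X hX
    rw [gER] at hX
    obtain ⟨A, C, h1, _, h3, h4, _⟩ := endHom_exists χ (gER k + 1) X (by
      have e : gER k + 1 + 2 = gER k + 3 := rfl
      rw [e]; exact hX) (gER k + 1) le_rfl
    have hAne : A.Nonempty := by rw [← card_pos]; omega
    set b := A.max' hAne with hb
    have hbA : b ∈ A := max'_mem _ _
    obtain ⟨H, h5, h6, i, h7⟩ := ih (fun S => χ (insert b S)) (A.erase b) (by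
      rw [card_erase_of_mem hbA]; omega)
    have hlt : ∀ x ∈ H, x < b := by
      intro x hx
      have := h5 hx
      rw [mem_erase] at this
      exact lt_of_le_of_ne (le_max' _ _ this.2) this.1
    have hbH : b ∉ H := fun h => lt_irrefl b (hlt b h)
    refine ⟨insert b H, ?_, ?_, i, ?_⟩
    · intro x hx
      rw [mem_insert] at hx
      rcases hx with rfl | hx
      · exact h1 hbA
      · exact h1 (mem_of_mem_erase (h5 hx))
    · rw [card_insert_of_notMem hbH, h6]
    · intro S hS hScard
      have hSne : S.Nonempty := by rw [← card_pos]; omega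
      set x := S.max' hSne with hx
      have hxS : x ∈ S := max'_mem _ _
      have hSx : insert x (S.erase x) = S := insert_erase hxS
      have hltx : ∀ s ∈ S.erase x, s < x := by
        intro s hs
        rw [mem_erase] at hs
        exact lt_of_le_of_ne (le_max' _ _ hs.2) hs.1
      have hsub : S.erase x ⊆ H := by
        intro s hs
        have h8 := hltx s hs
        have h9 := hS (mem_of_mem_erase hs)
        rw [mem_insert] at h9
        rcases h9 with h9 | h9
        · exfalso
          have h10 := hS hxS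
          rw [mem_insert] at h10
          rcases h10 with h10 | h10
          · omega
          · have := hlt x h10
            omega
        · exact h9
      have hxA : x ∈ A := by
        have h10 := hS hxS
        rw [mem_insert] at h10
        rcases h10 with h10 | h10
        · rw [h10]; exact hbA
        · exact mem_of_mem_erase (h5 h10)
      have hkey := h4.2 (S.erase x) (hsub.trans (h5.trans (erase_subset _ _))) x
        (mem_union_left _ hxA) b (mem_union_left _ hbA) hltx
        (fun s hs => hlt s (hsub hs))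
      rw [hSx] at hkey
      rw [hkey]
      exact h7 (S.erase x) hsub (by rw [card_erase_of_mem hxS]; omega)

theorem gER_le : ∀ k, gER k + 4 ≤ twr (2 * k + 3) := by
  intro k
  induction k with
  | zero => simp [gER, twr]
  | succ k ih =>
    rw [gER]
    have e : 2 * (k + 1) + 3 = (2 * k + 3) + 1 + 1 := by ring
    rw [e, twr, twr]
    set t := twr (2 * k + 3) with ht
    have h1 : 2 ^ (gER k + 3) + 1 ≤ 2 ^ t := by
      calc 2 ^ (gER k + 3) + 1 ≤ 2 ^ (gER k + 3) + 2 ^ (gER k + 3) := by
            have := Nat.one_le_two_pow (n := gER k + 3)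
            omega
        _ = 2 ^ (gER k + 4) := by rw [pow_succ 2 (gER k + 3)]; ring
        _ ≤ 2 ^ t := Nat.pow_le_pow_right (by norm_num) ih
    have h2 : 4 ≤ 2 ^ 2 ^ (gER k + 3) := by
      calc 4 = 2 ^ 2 := by norm_num
        _ ≤ 2 ^ 2 ^ (gER k + 3) := by
            apply Nat.pow_le_pow_right (by norm_num)
            calc 2 = 2 ^ 1 := by norm_num
              _ ≤ 2 ^ (gER k + 3) := Nat.pow_le_pow_right (by norm_num) (by omega)
    calc 2 ^ 2 ^ (gER k + 3) + 4 ≤ 2 ^ 2 ^ (gER k + 3) + 2 ^ 2 ^ (gER k + 3) := by omega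
      _ = 2 ^ (2 ^ (gER k + 3) + 1) := by rw [pow_succ 2 (2 ^ (gER k + 3))]; ring
      _ ≤ 2 ^ 2 ^ t := Nat.pow_le_pow_right (by norm_num) h1

theorem upper_bound (k : ℕ) : Arrow k (twr (2 * k + 3)) := by
  classical
  obtain ⟨n, hn⟩ : ∃ n, n = twr (2 * k + 3) := ⟨_, rfl⟩
  rw [← hn]
  intro χ
  have hcard : gER k ≤ ((univ : Finset (Fin n)).map Fin.valEmbedding).card := by
    rw [card_map, card_univ, Fintype.card_fin, hn]
    have := gER_le k
    omega
  obtain ⟨H, h1, h2, i, h3⟩ := erdos_rado k
    (fun S => χ (univ.filter (fun x : Fin n => (x : ℕ) ∈ S))) _ hcard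
  have hmap : (univ.filter (fun x : Fin n => (x : ℕ) ∈ H)).map Fin.valEmbedding = H := by
    ext y
    rw [mem_map]
    constructor
    · rintro ⟨x, hx, rfl⟩
      rw [mem_filter] at hx
      exact hx.2
    · intro hy
      have := h1 hy
      rw [mem_map] at this
      obtain ⟨x, _, rfl⟩ := this
      exact ⟨x, mem_filter.2 ⟨mem_univ _, hy⟩, rfl⟩
  refine ⟨univ.filter (fun x : Fin n => (x : ℕ) ∈ H), ?_, i, ?_⟩
  · rw [← h2, ← card_map Fin.valEmbedding, hmap]
  · intro S hS hScard
    have h4 := h3 (S.map Fin.valEmbedding) (by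
      rw [← hmap]
      exact map_subset_map.2 hS) (by rw [card_map, hScard])
    have h5 : univ.filter (fun x : Fin n => (x : ℕ) ∈ S.map Fin.valEmbedding) = S := by
      ext y
      rw [mem_filter, mem_map]
      constructor
      · rintro ⟨_, x, hx, hxy⟩
        have : x = y := Fin.ext hxy
        rw [← this]; exact hx
      · intro hy
        exact ⟨mem_univ _, y, hy, rfl⟩
    rw [h5] at h4
    exact h4

end RamseyTower
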